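import Pool.Agent.H927.MG.HType

/-!
# Composition of homomorphisms between the algebras, criterion for isomorphism of data
-/

set_option autoImplicit false

open AlgebraicGeometry CategoryTheory Limits Polynomial

open scoped LaurentPolynomial

open LaurentPolynomial (T invert T_add T_zero involutive_invert invert_T invert_C)

namespace Pool.Agent.H927.MG

open Pool.Agent.W523

/-- composition -/
def Mor.comp {A B D : Type} [CommRing A] [CommRing B] [CommRing D] {φ : A →+* B} {ψ : B →+* D}
    {χ : A →+* D} {d : Dat A} {d' : Dat B} {d'' : Dat D} (g : Mor φ d d') (h : Mor ψ d' d'')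
    (hχ : ψ.comp φ = χ) : Mor χ d d'' where
  c := ψ g.c * h.c
  x := ψ g.x * h.x + ψ g.y * h.z
  y := ψ g.x * h.y + ψ g.y * h.t
  z := ψ g.z * h.x + ψ g.t * h.z
  t := ψ g.z * h.y + ψ g.t * h.t
  e0 := by
    have e : ∀ r, χ r = ψ (φ r) := fun r => (congr($hχ r)).symm
    have h1 := congrArg ψ g.e0
    have h2 := h.e0
    simp only [map_mul] at h1
    rw [e]
    linear_combination h1 + ψ g.c * ψ g.c * h2
  e1 := by
    have e : ∀ r, χ r = ψ (φ r) := fun r => (congr($hχ r)).symm
    have h1 := congrArg ψ g.e1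
    simp only [map_mul, map_sub, map_pow] at h1
    rw [e]
    linear_combination h.c * h1 + (ψ g.x) ^ 2 * h.e1 + (ψ g.y) ^ 2 * h.e3 +
      2 * ψ g.x * ψ g.y * h.e5
  e2 := by
    have e : ∀ r, χ r = ψ (φ r) := fun r => (congr($hχ r)).symm
    have h1 := congrArg ψ g.e2
    have h2 : ψ 2 = 2 := map_ofNat ψ 2
    simp only [map_mul, map_add, map_pow, h2] at h1
    rw [e, e]
    linear_combination h1 + (ψ g.x) ^ 2 * h.e2 + (ψ g.y) ^ 2 * h.e4 +
      2 * ψ g.x * ψ g.y * h.e6
  e3 := by
    have e : ∀ r, χ r = ψ (φ r) := fun r => (congr($hχ r)).symm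
    have h1 := congrArg ψ g.e3
    simp only [map_mul, map_sub, map_pow, map_neg] at h1
    rw [e]
    linear_combination h.c * h1 + (ψ g.z) ^ 2 * h.e1 + (ψ g.t) ^ 2 * h.e3 +
      2 * ψ g.z * ψ g.t * h.e5
  e4 := by
    have e : ∀ r, χ r = ψ (φ r) := fun r => (congr($hχ r)).symm
    have h1 := congrArg ψ g.e4
    have h2 : ψ 2 = 2 := map_ofNat ψ 2
    simp only [map_mul, map_add, map_pow, h2] at h1
    rw [e, e]
    linear_combination h1 + (ψ g.z) ^ 2 * h.e2 + (ψ g.t) ^ 2 * h.e4 +
      2 * ψ g.z * ψ g.t * h.e6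
  e5 := by
    have h1 := congrArg ψ g.e5
    simp only [map_mul, map_sub, map_zero] at h1
    linear_combination h.c * h1 + ψ g.x * ψ g.z * h.e1 + ψ g.y * ψ g.t * h.e3 +
      (ψ g.x * ψ g.t + ψ g.y * ψ g.z) * h.e5
  e6 := by
    have e : ∀ r, χ r = ψ (φ r) := fun r => (congr($hχ r)).symm
    have h1 := congrArg ψ g.e6
    simp only [map_mul, map_add] at h1
    rw [e, e, e]
    linear_combination h1 + ψ g.x * ψ g.z * h.e2 + ψ g.y * ψ g.t * h.e4 +
      (ψ g.x * ψ g.t + ψ g.y * ψ g.z) * h.e6
  e7 := by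
    have e : ∀ r, χ r = ψ (φ r) := fun r => (congr($hχ r)).symm
    have h1 := congrArg ψ g.e7
    have h2 := congrArg ψ g.e8
    simp only [map_mul, map_add, map_sub, map_neg] at h1 h2
    rw [e, e, e]
    linear_combination h.x * h1 + h.z * h2 + ψ g.c * ψ g.x * h.e7 + ψ g.c * ψ g.y * h.e9
  e8 := by
    have e : ∀ r, χ r = ψ (φ r) := fun r => (congr($hχ r)).symm
    have h1 := congrArg ψ g.e7
    have h2 := congrArg ψ g.e8
    simp only [map_mul, map_add, map_sub, map_neg] at h1 h2
    rw [e, e, e]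
    linear_combination h.y * h1 + h.t * h2 + ψ g.c * ψ g.x * h.e8 + ψ g.c * ψ g.y * h.e10
  e9 := by
    have e : ∀ r, χ r = ψ (φ r) := fun r => (congr($hχ r)).symm
    have h1 := congrArg ψ g.e9
    have h2 := congrArg ψ g.e10
    simp only [map_mul, map_add, map_sub, map_neg] at h1 h2
    rw [e, e, e]
    linear_combination h.x * h1 + h.z * h2 + ψ g.c * ψ g.z * h.e7 + ψ g.c * ψ g.t * h.e9
  e10 := by
    have e : ∀ r, χ r = ψ (φ r) := fun r => (congr($hχ r)).symm
    have h1 := congrArg ψ g.e9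
    have h2 := congrArg ψ g.e10
    simp only [map_mul, map_add, map_sub, map_neg] at h1 h2
    rw [e, e, e]
    linear_combination h.y * h1 + h.t * h2 + ψ g.c * ψ g.z * h.e8 + ψ g.c * ψ g.t * h.e10

variable {R : Type} [CommRing R]

/-- the substitution `X ↦ u X` -/
noncomputable def scl (u : Rˣ) : R[X] →+* R[X] := eval₂RingHom C (C (u : R) * X)

/-- the unit `u T` -/
noncomputable def uT (u : Rˣ) : (R[T;T⁻¹])ˣ where
  val := LaurentPolynomial.C (u : R) * T 1
  inv := LaurentPolynomial.C ((u⁻¹ : Rˣ) : R) * T (-1)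
  val_inv := by
    rw [mul_mul_mul_comm, ← map_mul, ← T_add]; simp
  inv_val := by
    rw [mul_mul_mul_comm, ← map_mul, ← T_add]; simp

/-- the substitution `T ↦ u T` -/
noncomputable def sclL (u : Rˣ) : R[T;T⁻¹] →+* R[T;T⁻¹] :=
  LaurentPolynomial.eval₂ LaurentPolynomial.C (uT u)

@[simp] lemma scl_C (u : Rˣ) (r : R) : scl u (C r) = C r := by simp [scl]

@[simp] lemma scl_X (u : Rˣ) : scl u X = C (u : R) * X := by simp [scl]

@[simp] lemma sclL_C (u : Rˣ) (r : R) :
    sclL u (LaurentPolynomial.C r) = LaurentPolynomial.C r := by simp [sclL]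

@[simp] lemma sclL_T1 (u : Rˣ) : sclL u (T 1) = LaurentPolynomial.C (u : R) * T 1 := by
  simp [sclL, uT]

@[simp] lemma sclL_Tm1 (u : Rˣ) :
    sclL u (T (-1)) = LaurentPolynomial.C ((u⁻¹ : Rˣ) : R) * T (-1) := by
  simp [sclL, uT]

lemma sclL_toLaurent (u : Rˣ) (p : R[X]) : sclL u (toLaurent p) = toLaurent (scl u p) := by
  have : (sclL u).comp toLaurent = toLaurent.comp (scl u) := by
    apply Polynomial.ringHom_ext
    · intro r; simp
    · simp
  exact congr($this p)

lemma sclL_inv_toLaurent (u : Rˣ) (p : R[X]) :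
    sclL u (inv R (toLaurent p)) = inv R (toLaurent (scl u⁻¹ p)) := by
  have : (sclL u).comp ((inv R).comp toLaurent) = (inv R).comp (toLaurent.comp (scl u⁻¹)) := by
    apply Polynomial.ringHom_ext
    · intro r; simp [inv_apply]
    · simp [inv_apply]
  exact congr($this p)

lemma scl_bijective (u : Rˣ) : Function.Bijective (scl u) := by
  have h : ∀ v : Rˣ, ∀ p : R[X], scl v⁻¹ (scl v p) = p := by
    intro v p
    have : (scl v⁻¹).comp (scl v) = RingHom.id _ := by
      apply Polynomial.ringHom_ext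
      · intro r; simp
      · rw [RingHom.comp_apply, scl_X, map_mul, scl_C, scl_X, ← mul_assoc, ← map_mul]; simp
    exact congr($this p)
  refine ⟨fun p q hpq => ?_, fun p => ⟨scl u⁻¹ p, ?_⟩⟩
  · rw [← h u p, hpq, h u q]
  · have := h u⁻¹ p
    rwa [inv_inv] at this

lemma sclL_bijective (u : Rˣ) : Function.Bijective (sclL u) := by
  have h : ∀ v : Rˣ, ∀ p : R[T;T⁻¹], sclL v⁻¹ (sclL v p) = p := by
    intro v p
    induction p using LaurentPolynomial.induction_on' with
    | add p q hp hq => simp only [map_add, hp, hq]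
    | C_mul_T n a =>
      simp only [map_mul, sclL_C]
      congr 1
      have h1 : ∀ w : Rˣ, ∀ n : ℤ, sclL w (T n) = LaurentPolynomial.C ((w ^ n : Rˣ) : R) * T n := by
        intro w n
        have h0 : ∀ n : ℕ, sclL w (T n) = LaurentPolynomial.C ((w ^ n : Rˣ) : R) * T n := by
          intro n
          have : (T (n : ℤ) : R[T;T⁻¹]) = T 1 ^ n := by rw [LaurentPolynomial.T_pow, mul_one]
          rw [this, map_pow, sclL_T1, mul_pow]; simp
        have h0' : ∀ n : ℕ, sclL w (T (-n)) = LaurentPolynomial.C ((w ^ (-n : ℤ) : Rˣ) : R) *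
            T (-n) := by
          intro n
          have : (T (-(n : ℤ)) : R[T;T⁻¹]) = T (-1) ^ n := by
            rw [LaurentPolynomial.T_pow]; simp
          rw [this, map_pow, sclL_Tm1, mul_pow]; simp
        rcases n with n | n
        · exact_mod_cast h0 n
        · have := h0' (n + 1)
          rw [Int.negSucc_eq]
          exact_mod_cast this
      rw [h1, map_mul, sclL_C, h1, ← mul_assoc, ← map_mul]
      simp
  refine ⟨fun p q hpq => ?_, fun p => ⟨sclL u⁻¹ p, ?_⟩⟩
  · rw [← h u p, hpq, h u q]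
  · have := h u⁻¹ p
    rwa [inv_inv] at this

/-- Criterion for isomorphism of data. -/
theorem GIso.of_mor {G G' : GD R} (u : Rˣ) (m1 : Mor (scl u) G.d1 G'.d1)
    (m2 : Mor (scl u⁻¹) G.d2 G'.d2) (hc1 : IsUnit m1.c) (hd1 : IsUnit (m1.x * m1.t - m1.y * m1.z))
    (hc2 : IsUnit m2.c) (hd2 : IsUnit (m2.x * m2.t - m2.y * m2.z))
    (hc : sclL u G.g.c * toLaurent m1.c = inv R (toLaurent m2.c) * G'.g.c)
    (hx : sclL u G.g.x * toLaurent m1.x + sclL u G.g.y * toLaurent m1.z =
      inv R (toLaurent m2.x) * G'.g.x + inv R (toLaurent m2.y) * G'.g.z)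
    (hy : sclL u G.g.x * toLaurent m1.y + sclL u G.g.y * toLaurent m1.t =
      inv R (toLaurent m2.x) * G'.g.y + inv R (toLaurent m2.y) * G'.g.t)
    (hz : sclL u G.g.z * toLaurent m1.x + sclL u G.g.t * toLaurent m1.z =
      inv R (toLaurent m2.z) * G'.g.x + inv R (toLaurent m2.t) * G'.g.z)
    (ht : sclL u G.g.z * toLaurent m1.y + sclL u G.g.t * toLaurent m1.t =
      inv R (toLaurent m2.z) * G'.g.y + inv R (toLaurent m2.t) * G'.g.t) : GIso G G' := by
  let mL : Mor (sclL u) G.d1.L G'.d1.L := m1.map toLaurent toLaurent (sclL u)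
    (RingHom.ext fun p => sclL_toLaurent u p)
  have hcL : IsUnit mL.c := hc1.map toLaurent
  have hdL : IsUnit (mL.x * mL.t - mL.y * mL.z) := by
    have := hd1.map toLaurent
    rwa [map_sub, map_mul, map_mul] at this
  refine ⟨RingEquiv.ofBijective m1.hom (m1.bijective (scl_bijective u) hc1 hd1),
    RingEquiv.ofBijective m2.hom (m2.bijective (scl_bijective _) hc2 hd2),
    RingEquiv.ofBijective mL.hom (mL.bijective (sclL_bijective u) hcL hdL), ?_, ?_, ?_, ?_, ?_⟩
  · intro r
    change m1.hom (BB.of _ (C r)) = BB.of _ (C r)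
    rw [Mor.hom_of, scl_C]
  · intro r
    change m2.hom (BB.of _ (C r)) = BB.of _ (C r)
    rw [Mor.hom_of, scl_C]
  · intro w
    exact Mor.map_hom m1 _ _ _ _ w
  · have : mL.hom.comp (inc2 G) = (inc2 G').comp m2.hom := by
      apply BB.hom_ext
      · intro r
        simp only [RingHom.comp_apply, inc2, inc, BB.map_of, Mor.hom_of, sclL_inv_toLaurent]
      · simp only [RingHom.comp_apply, inc2, inc, Mor.hom_apply]
        apply BB.ext <;>
          simp only [BB.v, BB.map_a', BB.map_b', BB.map_p', BB.map_q', map_zero, map_one, mul_zero,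
            mul_one, add_zero, zero_add]
        · exact (mul_comm _ _).trans (hc.trans (mul_comm _ _))
      · simp only [RingHom.comp_apply, inc2, inc, Mor.hom_apply]
        apply BB.ext <;>
          simp only [BB.W0, BB.map_a', BB.map_b', BB.map_p', BB.map_q', map_zero, map_one,
            mul_zero, mul_one, add_zero, zero_add]
        · change toLaurent m1.x * _ + toLaurent m1.z * _ = _
          linear_combination hx
        · change toLaurent m1.y * _ + toLaurent m1.t * _ = _
          linear_combination hy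
      · simp only [RingHom.comp_apply, inc2, inc, Mor.hom_apply]
        apply BB.ext <;>
          simp only [BB.W1, BB.map_a', BB.map_b', BB.map_p', BB.map_q', map_zero, map_one,
            mul_zero, mul_one, add_zero, zero_add]
        · change toLaurent m1.x * _ + toLaurent m1.z * _ = _
          linear_combination hz
        · change toLaurent m1.y * _ + toLaurent m1.t * _ = _
          linear_combination ht
    intro w
    exact congr($this w)
  · refine ⟨sc _ (u : R), u.isUnit.map _, ?_⟩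
    change m1.hom (BB.of _ X) = BB.of _ (C (u : R)) * BB.of _ X
    rw [Mor.hom_of, scl_X, map_mul]

end Pool.Agent.H927.MG
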