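import Mathlib

/-!
# The algebra `A[v, W₀, W₁]`

`v² = f`, `W₀² = l (V + v)`, `W₁² = m (V - v)`, `W₀ W₁ = l m T`, `v W₀ = V W₀ - l T W₁`,
`v W₁ = m T W₀ - V W₁`, where `f = V² - l m T²`. It is free of rank four over `A`.
-/

set_option autoImplicit false

open Polynomial

namespace Pool.Agent.H927.MG

/-- The coefficients `l, m, V, T` of the algebra. -/
@[ext] structure Dat (A : Type) where
  l : A
  m : A
  V : A
  T : A

variable {A : Type} [CommRing A]

/-- `f = V² - l m T²` -/
def Dat.f (d : Dat A) : A := d.V ^ 2 - d.l * d.m * d.T ^ 2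

/-- image of the coefficients under a ring homomorphism -/
def Dat.map {B : Type} [CommRing B] (φ : A →+* B) (d : Dat A) : Dat B :=
  ⟨φ d.l, φ d.m, φ d.V, φ d.T⟩

@[simp] lemma Dat.map_l {B : Type} [CommRing B] (φ : A →+* B) (d : Dat A) : (d.map φ).l = φ d.l := rfl
@[simp] lemma Dat.map_m {B : Type} [CommRing B] (φ : A →+* B) (d : Dat A) : (d.map φ).m = φ d.m := rfl
@[simp] lemma Dat.map_V {B : Type} [CommRing B] (φ : A →+* B) (d : Dat A) : (d.map φ).V = φ d.V := rfl
@[simp] lemma Dat.map_T {B : Type} [CommRing B] (φ : A →+* B) (d : Dat A) : (d.map φ).T = φ d.T := rfl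

lemma Dat.map_f {B : Type} [CommRing B] (φ : A →+* B) (d : Dat A) : (d.map φ).f = φ d.f := by
  simp [Dat.f]

lemma Dat.map_map {B C : Type} [CommRing B] [CommRing C] (φ : A →+* B) (ψ : B →+* C) (d : Dat A) :
    (d.map φ).map ψ = d.map (ψ.comp φ) := rfl

lemma Dat.map_id (d : Dat A) : d.map (RingHom.id A) = d := rfl

/-- The elements `a + b v + p W₀ + q W₁` of the algebra. -/
@[ext] structure BB (d : Dat A) where
  a : A
  b : A
  p : A
  q : A

namespace BB

variable {d : Dat A}

instance : Zero (BB d) := ⟨⟨0, 0, 0, 0⟩⟩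
instance : One (BB d) := ⟨⟨1, 0, 0, 0⟩⟩
instance : Add (BB d) := ⟨fun x y => ⟨x.a + y.a, x.b + y.b, x.p + y.p, x.q + y.q⟩⟩
instance : Neg (BB d) := ⟨fun x => ⟨-x.a, -x.b, -x.p, -x.q⟩⟩
instance : Sub (BB d) := ⟨fun x y => ⟨x.a - y.a, x.b - y.b, x.p - y.p, x.q - y.q⟩⟩
instance : Mul (BB d) := ⟨fun x y =>
  ⟨x.a * y.a + d.f * (x.b * y.b) + (x.p * y.p * d.l + x.q * y.q * d.m) * d.V +
      (x.p * y.q + x.q * y.p) * (d.l * d.m * d.T),
    x.a * y.b + x.b * y.a + x.p * y.p * d.l - x.q * y.q * d.m,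
    x.a * y.p + x.p * y.a + (x.b * y.p + x.p * y.b) * d.V + (x.b * y.q + x.q * y.b) * (d.m * d.T),
    x.a * y.q + x.q * y.a - (x.b * y.p + x.p * y.b) * (d.l * d.T) -
      (x.b * y.q + x.q * y.b) * d.V⟩⟩

@[simp] lemma zero_a : (0 : BB d).a = 0 := rfl
@[simp] lemma zero_b : (0 : BB d).b = 0 := rfl
@[simp] lemma zero_p : (0 : BB d).p = 0 := rfl
@[simp] lemma zero_q : (0 : BB d).q = 0 := rfl
@[simp] lemma one_a : (1 : BB d).a = 1 := rfl
@[simp] lemma one_b : (1 : BB d).b = 0 := rfl
@[simp] lemma one_p : (1 : BB d).p = 0 := rfl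
@[simp] lemma one_q : (1 : BB d).q = 0 := rfl
@[simp] lemma add_a (x y : BB d) : (x + y).a = x.a + y.a := rfl
@[simp] lemma add_b (x y : BB d) : (x + y).b = x.b + y.b := rfl
@[simp] lemma add_p (x y : BB d) : (x + y).p = x.p + y.p := rfl
@[simp] lemma add_q (x y : BB d) : (x + y).q = x.q + y.q := rfl
@[simp] lemma sub_a (x y : BB d) : (x - y).a = x.a - y.a := rfl
@[simp] lemma sub_b (x y : BB d) : (x - y).b = x.b - y.b := rfl
@[simp] lemma sub_p (x y : BB d) : (x - y).p = x.p - y.p := rfl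
@[simp] lemma sub_q (x y : BB d) : (x - y).q = x.q - y.q := rfl
@[simp] lemma neg_a (x : BB d) : (-x).a = -x.a := rfl
@[simp] lemma neg_b (x : BB d) : (-x).b = -x.b := rfl
@[simp] lemma neg_p (x : BB d) : (-x).p = -x.p := rfl
@[simp] lemma neg_q (x : BB d) : (-x).q = -x.q := rfl
@[simp] lemma mul_a (x y : BB d) : (x * y).a =
  x.a * y.a + d.f * (x.b * y.b) + (x.p * y.p * d.l + x.q * y.q * d.m) * d.V +
      (x.p * y.q + x.q * y.p) * (d.l * d.m * d.T) := rfl
@[simp] lemma mul_b (x y : BB d) : (x * y).b =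
    x.a * y.b + x.b * y.a + x.p * y.p * d.l - x.q * y.q * d.m := rfl
@[simp] lemma mul_p (x y : BB d) : (x * y).p =
    x.a * y.p + x.p * y.a + (x.b * y.p + x.p * y.b) * d.V +
      (x.b * y.q + x.q * y.b) * (d.m * d.T) := rfl
@[simp] lemma mul_q (x y : BB d) : (x * y).q =
    x.a * y.q + x.q * y.a - (x.b * y.p + x.p * y.b) * (d.l * d.T) -
      (x.b * y.q + x.q * y.b) * d.V := rfl

instance : CommRing (BB d) where
  add_assoc x y z := by ext <;> simp <;> ring
  zero_add x := by ext <;> simp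
  add_zero x := by ext <;> simp
  add_comm x y := by ext <;> simp <;> ring
  neg_add_cancel x := by ext <;> simp
  sub_eq_add_neg x y := by ext <;> simp <;> ring
  nsmul := nsmulRec
  zsmul := zsmulRec
  mul_assoc x y z := by ext <;> simp [Dat.f] <;> ring
  one_mul x := by ext <;> simp
  mul_one x := by ext <;> simp
  zero_mul x := by ext <;> simp
  mul_zero x := by ext <;> simp
  left_distrib x y z := by ext <;> simp <;> ring
  right_distrib x y z := by ext <;> simp <;> ring
  mul_comm x y := by ext <;> simp <;> ring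
  npow := npowRec

/-- the scalars -/
def of (d : Dat A) : A →+* BB d where
  toFun r := ⟨r, 0, 0, 0⟩
  map_one' := rfl
  map_zero' := rfl
  map_add' x y := by ext <;> simp
  map_mul' x y := by ext <;> simp

@[simp] lemma of_a (r : A) : (of d r).a = r := rfl
@[simp] lemma of_b (r : A) : (of d r).b = 0 := rfl
@[simp] lemma of_p (r : A) : (of d r).p = 0 := rfl
@[simp] lemma of_q (r : A) : (of d r).q = 0 := rfl

instance : Algebra A (BB d) where
  smul r x := ⟨r * x.a, r * x.b, r * x.p, r * x.q⟩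
  algebraMap := of d
  commutes' r x := mul_comm _ _
  smul_def' r x := by
    change (⟨r * x.a, r * x.b, r * x.p, r * x.q⟩ : BB d) = of d r * x
    ext <;> simp

@[simp] lemma algebraMap_eq : algebraMap A (BB d) = of d := rfl

@[simp] lemma smul_a (r : A) (x : BB d) : (r • x).a = r * x.a := rfl
@[simp] lemma smul_b (r : A) (x : BB d) : (r • x).b = r * x.b := rfl
@[simp] lemma smul_p (r : A) (x : BB d) : (r • x).p = r * x.p := rfl
@[simp] lemma smul_q (r : A) (x : BB d) : (r • x).q = r * x.q := rfl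

/-- the algebra is free of rank four -/
def equivFun (d : Dat A) : BB d ≃ₗ[A] (Fin 4 → A) where
  toFun x := ![x.a, x.b, x.p, x.q]
  invFun g := ⟨g 0, g 1, g 2, g 3⟩
  map_add' x y := by ext i; fin_cases i <;> rfl
  map_smul' r x := by ext i; fin_cases i <;> rfl
  left_inv x := rfl
  right_inv g := by ext i; fin_cases i <;> rfl

instance : Module.Finite A (BB d) := Module.Finite.equiv (equivFun d).symm

instance : Module.Free A (BB d) := Module.Free.of_equiv (equivFun d).symm

/-- the generator `v` -/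
def v (d : Dat A) : BB d := ⟨0, 1, 0, 0⟩
/-- the generator `W₀` -/
def W0 (d : Dat A) : BB d := ⟨0, 0, 1, 0⟩
/-- the generator `W₁` -/
def W1 (d : Dat A) : BB d := ⟨0, 0, 0, 1⟩

lemma eq_comb (x : BB d) :
    x = of d x.a + of d x.b * v d + of d x.p * W0 d + of d x.q * W1 d := by
  ext <;> simp [v, W0, W1]

lemma v_mul_v : v d * v d = of d d.f := by ext <;> simp [v]
lemma W0_mul_W0 : W0 d * W0 d = of d d.l * (of d d.V + v d) := by ext <;> simp [v, W0]
lemma W1_mul_W1 : W1 d * W1 d = of d d.m * (of d d.V - v d) := by ext <;> simp [v, W1]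
lemma W0_mul_W1 : W0 d * W1 d = of d (d.l * d.m * d.T) := by ext <;> simp [W0, W1]
lemma v_mul_W0 : v d * W0 d = of d d.V * W0 d - of d (d.l * d.T) * W1 d := by
  ext <;> simp [v, W0, W1]
lemma v_mul_W1 : v d * W1 d = of d (d.m * d.T) * W0 d - of d d.V * W1 d := by
  ext <;> simp [v, W0, W1]

/-- two ring homomorphisms agreeing on scalars and generators are equal -/
lemma hom_ext {S : Type} [CommRing S] {φ ψ : BB d →+* S} (h : ∀ r, φ (of d r) = ψ (of d r))
    (hv : φ (v d) = ψ (v d)) (h0 : φ (W0 d) = ψ (W0 d)) (h1 : φ (W1 d) = ψ (W1 d)) : φ = ψ := by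
  ext x
  rw [eq_comb x]
  simp only [map_add, map_mul, h, hv, h0, h1]

/-- ring homomorphisms out of the algebra -/
def lift {S : Type} [CommRing S] (e : A →+* S) (y w z : S) (h1 : y * y = e d.f)
    (h2 : w * w = e d.l * (e d.V + y)) (h3 : z * z = e d.m * (e d.V - y))
    (h4 : w * z = e (d.l * d.m * d.T)) (h5 : y * w = e d.V * w - e (d.l * d.T) * z)
    (h6 : y * z = e (d.m * d.T) * w - e d.V * z) : BB d →+* S where
  toFun x := e x.a + e x.b * y + e x.p * w + e x.q * z
  map_one' := by simp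
  map_zero' := by simp
  map_add' x x' := by simp; ring
  map_mul' x x' := by
    simp only [mul_a, mul_b, mul_p, mul_q, map_add, map_mul, map_sub] at *
    linear_combination (-(e x.b * e x'.b)) * h1 - (e x.p * e x'.p) * h2 - (e x.q * e x'.q) * h3 -
      (e x.p * e x'.q + e x.q * e x'.p) * h4 - (e x.b * e x'.p + e x.p * e x'.b) * h5 -
      (e x.b * e x'.q + e x.q * e x'.b) * h6

lemma lift_apply {S : Type} [CommRing S] (e : A →+* S) (y w z : S) (h1 h2 h3 h4 h5 h6) (x : BB d) :
    lift e y w z h1 h2 h3 h4 h5 h6 x = e x.a + e x.b * y + e x.p * w + e x.q * z := rfl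

/-- base change -/
def map {B : Type} [CommRing B] (φ : A →+* B) (d : Dat A) : BB d →+* BB (d.map φ) where
  toFun x := ⟨φ x.a, φ x.b, φ x.p, φ x.q⟩
  map_one' := by ext <;> simp
  map_zero' := by ext <;> simp
  map_add' x y := by ext <;> simp
  map_mul' x y := by ext <;> simp [Dat.map_f]

@[simp] lemma map_a' {B : Type} [CommRing B] (φ : A →+* B) (x : BB d) : (map φ d x).a = φ x.a := rfl
@[simp] lemma map_b' {B : Type} [CommRing B] (φ : A →+* B) (x : BB d) : (map φ d x).b = φ x.b := rfl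
@[simp] lemma map_p' {B : Type} [CommRing B] (φ : A →+* B) (x : BB d) : (map φ d x).p = φ x.p := rfl
@[simp] lemma map_q' {B : Type} [CommRing B] (φ : A →+* B) (x : BB d) : (map φ d x).q = φ x.q := rfl

lemma map_injective {B : Type} [CommRing B] (φ : A →+* B) (hφ : Function.Injective φ) :
    Function.Injective (map φ d) := by
  intro x y h
  have h1 := congrArg BB.a h
  have h2 := congrArg BB.b h
  have h3 := congrArg BB.p h
  have h4 := congrArg BB.q h
  simp only [map_a', map_b', map_p', map_q'] at h1 h2 h3 h4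
  ext
  · exact hφ h1
  · exact hφ h2
  · exact hφ h3
  · exact hφ h4

lemma map_of {B : Type} [CommRing B] (φ : A →+* B) (r : A) :
    map φ d (of d r) = of (d.map φ) (φ r) := by
  ext <;> simp

end BB

end Pool.Agent.H927.MG
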