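import Pool.Agent.H927.MG.SGoals

/-!
# Base change and isomorphism of curves
-/

set_option autoImplicit false

open AlgebraicGeometry CategoryTheory Limits Polynomial

open scoped LaurentPolynomial

open LaurentPolynomial (T invert T_add T_zero involutive_invert invert_T invert_C)

namespace Pool.Agent.H927.MG

open Pool.Agent.W523

section push

variable {R S : Type} [CommRing R] [CommRing S] (φ : R →+* S) (d : Dat R[X])

lemma map_sc (r : R) : BB.map (mapRingHom φ) d (sc d r) = sc (d.map (mapRingHom φ)) (φ r) := by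
  rw [sc_apply, BB.map_of, coe_mapRingHom, Polynomial.map_C, sc_apply]

lemma map_xx : BB.map (mapRingHom φ) d (xx d) = xx (d.map (mapRingHom φ)) := by
  rw [xx, BB.map_of, coe_mapRingHom, Polynomial.map_X, xx]

lemma map_v {A B : Type} [CommRing A] [CommRing B] (φ : A →+* B) (d : Dat A) :
    BB.map φ d (BB.v d) = BB.v (d.map φ) := by ext <;> simp [BB.v]

lemma map_W0 {A B : Type} [CommRing A] [CommRing B] (φ : A →+* B) (d : Dat A) :
    BB.map φ d (BB.W0 d) = BB.W0 (d.map φ) := by ext <;> simp [BB.W0]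

lemma map_W1 {A B : Type} [CommRing A] [CommRing B] (φ : A →+* B) (d : Dat A) :
    BB.map φ d (BB.W1 d) = BB.W1 (d.map φ) := by ext <;> simp [BB.W1]

/-- the charts of the base change are push outs -/
lemma bb_pushout : IsPushout (CommRingCat.ofHom (sc d)) (CommRingCat.ofHom φ)
    (CommRingCat.ofHom (BB.map (mapRingHom φ) d))
    (CommRingCat.ofHom (sc (d.map (mapRingHom φ)))) := by
  have comm : CommRingCat.ofHom (sc d) ≫ CommRingCat.ofHom (BB.map (mapRingHom φ) d) =
      CommRingCat.ofHom φ ≫ CommRingCat.ofHom (sc (d.map (mapRingHom φ))) := by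
    rw [← CommRingCat.ofHom_comp, ← CommRingCat.ofHom_comp]
    congr 1
    ext1 r
    exact map_sc φ d r
  -- descent of homomorphisms
  have key : ∀ {K : Type} [CommRing K] (α : BB d →+* K) (β : S →+* K),
      (∀ r, α (sc d r) = β (φ r)) → ∃ γ : BB (d.map (mapRingHom φ)) →+* K,
        (∀ w, γ (BB.map (mapRingHom φ) d w) = α w) ∧ ∀ s, γ (sc _ s) = β s := by
    intro K _ α β hαβ
    let e : S[X] →+* K := eval₂RingHom β (α (xx d))
    have he : ∀ p : R[X], e (p.map φ) = α (BB.of d p) := by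
      intro p
      have : e.comp (mapRingHom φ) = α.comp (BB.of d) := by
        apply Polynomial.ringHom_ext
        · intro r
          have := hαβ r
          simp only [RingHom.comp_apply, coe_mapRingHom, Polynomial.map_C]
          rw [show e (C (φ r)) = β (φ r) by simp [e], ← this]
          rfl
        · simp only [RingHom.comp_apply, coe_mapRingHom, Polynomial.map_X]
          rw [show e X = α (xx d) by simp [e]]
          rfl
      exact congr($this p)
    refine ⟨BB.lift e (α (BB.v d)) (α (BB.W0 d)) (α (BB.W1 d)) ?_ ?_ ?_ ?_ ?_ ?_, ?_, ?_⟩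
    · rw [Dat.map_f, coe_mapRingHom, he, ← map_mul, BB.v_mul_v]
    · rw [Dat.map_l, Dat.map_V, coe_mapRingHom, he, he, ← map_add, ← map_mul, ← map_mul,
        BB.W0_mul_W0]
    · rw [Dat.map_m, Dat.map_V, coe_mapRingHom, he, he, ← map_sub, ← map_mul, ← map_mul,
        BB.W1_mul_W1]
    · rw [Dat.map_l, Dat.map_m, Dat.map_T, coe_mapRingHom, ← Polynomial.map_mul,
        ← Polynomial.map_mul, he, ← map_mul, BB.W0_mul_W1]
    · rw [Dat.map_l, Dat.map_V, Dat.map_T, coe_mapRingHom, ← Polynomial.map_mul, he, he,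
        ← map_mul, ← map_mul, ← map_mul, ← map_sub, BB.v_mul_W0]
    · rw [Dat.map_m, Dat.map_V, Dat.map_T, coe_mapRingHom, ← Polynomial.map_mul, he, he,
        ← map_mul, ← map_mul, ← map_mul, ← map_sub, BB.v_mul_W1]
    · intro w
      rw [BB.lift_apply, BB.map_a', BB.map_b', BB.map_p', BB.map_q', coe_mapRingHom, he, he, he,
        he]
      conv_rhs => rw [BB.eq_comb w]
      simp only [map_add, map_mul]
    · intro s
      rw [BB.lift_apply, sc_apply]
      simp [e]
  have uniq : ∀ {K : Type} [CommRing K] (γ γ' : BB (d.map (mapRingHom φ)) →+* K),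
      (∀ w, γ (BB.map (mapRingHom φ) d w) = γ' (BB.map (mapRingHom φ) d w)) →
      (∀ s, γ (sc _ s) = γ' (sc _ s)) → γ = γ' := by
    intro K _ γ γ' h1 h2
    apply BB.hom_ext
    · intro p
      have : γ.comp (BB.of _) = γ'.comp (BB.of (d.map (mapRingHom φ))) := by
        apply Polynomial.ringHom_ext
        · intro r; exact h2 r
        · have := h1 (xx d)
          rw [map_xx] at this
          exact this
      exact congr($this p)
    · rw [← map_v]; exact h1 _
    · rw [← map_W0]; exact h1 _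
    · rw [← map_W1]; exact h1 _
  have hc : ∀ (s : PushoutCocone (CommRingCat.ofHom (sc d)) (CommRingCat.ofHom φ)) (r : R),
    s.inl.hom (sc d r) = s.inr.hom (φ r) := fun s r => congr(($(s.condition)).hom r)
  refine ⟨⟨comm⟩, ⟨PushoutCocone.IsColimit.mk _ (fun s =>
    CommRingCat.ofHom (key s.inl.hom s.inr.hom (hc s)).choose) (fun s => ?_) (fun s => ?_)
    (fun s m h1 h2 => ?_)⟩⟩
  · ext w
    exact (key s.inl.hom s.inr.hom (hc s)).choose_spec.1 w
  · ext t
    exact (key s.inl.hom s.inr.hom (hc s)).choose_spec.2 t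
  · ext1
    rw [CommRingCat.hom_ofHom]
    apply uniq
    · intro w
      rw [(key s.inl.hom s.inr.hom (hc s)).choose_spec.1 w]
      exact congr(($h1).hom w)
    · intro t
      rw [(key s.inl.hom s.inr.hom (hc s)).choose_spec.2 t]
      exact congr(($h2).hom t)

end push

section morphism

variable {R S : Type} [CommRing R] [CommRing S] (G : GD R) (G' : GD S) (φ : R →+* S)

/-- The data of a morphism of curves on charts. -/
structure CM where
  m₁ : BB G.d1 →+* BB G'.d1
  m₂ : BB G.d2 →+* BB G'.d2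
  m₁₂ : BB G.d1.L →+* BB G'.d1.L
  h₁ : ∀ r, m₁ (sc _ r) = sc _ (φ r)
  h₂ : ∀ r, m₂ (sc _ r) = sc _ (φ r)
  c₁ : ∀ w, m₁₂ (inc _ w) = inc _ (m₁ w)
  c₂ : ∀ w, m₁₂ (inc2 G w) = inc2 G' (m₂ w)

namespace CM

variable {G G' φ} (t : CM G G' φ)

lemma glue : Spec.map (CommRingCat.ofHom (inc G'.d1)) ≫
      Spec.map (CommRingCat.ofHom t.m₁) ≫ (crvCharts G).j₁ =
    Spec.map (CommRingCat.ofHom (inc2 G')) ≫
      Spec.map (CommRingCat.ofHom t.m₂) ≫ (crvCharts G).j₂ := by
  have h1 : t.m₁₂.comp (inc _) = (inc _).comp t.m₁ := RingHom.ext t.c₁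
  have h2 : t.m₁₂.comp (inc2 G) = (inc2 G').comp t.m₂ := RingHom.ext t.c₂
  have h3 : Spec.map (CommRingCat.ofHom (inc _)) ≫ (crvCharts G).j₁ =
    Spec.map (CommRingCat.ofHom (inc2 G)) ≫ (crvCharts G).j₂ := (crvCharts G).pb.w
  rw [← Category.assoc, ← Category.assoc, ← Spec.map_comp, ← Spec.map_comp,
    ← CommRingCat.ofHom_comp, ← CommRingCat.ofHom_comp, ← h1, ← h2, CommRingCat.ofHom_comp,
    CommRingCat.ofHom_comp, Spec.map_comp, Spec.map_comp, Category.assoc, Category.assoc, h3]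

/-- the map of the curves -/
noncomputable def m : Crv G' ⟶ Crv G :=
  pushout.desc (Spec.map (CommRingCat.ofHom t.m₁) ≫ (crvCharts G).j₁)
    (Spec.map (CommRingCat.ofHom t.m₂) ≫ (crvCharts G).j₂) t.glue

lemma m_inl : (crvCharts G').j₁ ≫ t.m =
    Spec.map (CommRingCat.ofHom t.m₁) ≫ (crvCharts G).j₁ :=
  pushout.inl_desc _ _ _

lemma m_inr : (crvCharts G').j₂ ≫ t.m =
    Spec.map (CommRingCat.ofHom t.m₂) ≫ (crvCharts G).j₂ :=
  pushout.inr_desc _ _ _

lemma m_comm : t.m ≫ crvMap G = crvMap G' ≫ Spec.map (CommRingCat.ofHom φ) := by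
  apply pushout.hom_ext
  · have h1 := t.m_inl
    have h2 := (crvCharts G').h₁
    have h3 := (crvCharts G).h₁
    change (crvCharts G').j₁ ≫ t.m ≫ crvMap G = (crvCharts G').j₁ ≫ _
    rw [← Category.assoc, h1, Category.assoc, h3, ← Category.assoc, h2, ← Spec.map_comp,
      ← Spec.map_comp, ← CommRingCat.ofHom_comp, ← CommRingCat.ofHom_comp]
    congr 2
    exact RingHom.ext fun r => t.h₁ r
  · have h1 := t.m_inr
    have h2 := (crvCharts G').h₂
    have h3 := (crvCharts G).h₂
    change (crvCharts G').j₂ ≫ t.m ≫ crvMap G = (crvCharts G').j₂ ≫ _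
    rw [← Category.assoc, h1, Category.assoc, h3, ← Category.assoc, h2, ← Spec.map_comp,
      ← Spec.map_comp, ← CommRingCat.ofHom_comp, ← CommRingCat.ofHom_comp]
    congr 2
    exact RingHom.ext fun r => t.h₂ r

theorem isPullback (p₁ : IsPushout (CommRingCat.ofHom (sc G.d1)) (CommRingCat.ofHom φ)
      (CommRingCat.ofHom t.m₁) (CommRingCat.ofHom (sc G'.d1)))
    (p₂ : IsPushout (CommRingCat.ofHom (sc G.d2)) (CommRingCat.ofHom φ)
      (CommRingCat.ofHom t.m₂) (CommRingCat.ofHom (sc G'.d2)))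
    (e : BB G'.d1) (he : t.m₁ (xx _) = e * xx _) :
    IsPullback t.m (crvMap G') (crvMap G) (Spec.map (CommRingCat.ofHom φ)) :=
  (crvCharts G).cartesian (crvCharts G') p₁ p₂ e he t.m t.m_comm t.m_inl t.m_inr

end CM

lemma pushout_iso {A : Type} [CommRing A] {B B' : Type} [CommRing B] [CommRing B']
    {s : R →+* A} {m : A →+* B} {s' : S →+* B} (e : B ≃+* B')
    (h : IsPushout (CommRingCat.ofHom s) (CommRingCat.ofHom φ) (CommRingCat.ofHom m)
      (CommRingCat.ofHom s')) :
    IsPushout (CommRingCat.ofHom s) (CommRingCat.ofHom φ)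
      (CommRingCat.ofHom (e.toRingHom.comp m)) (CommRingCat.ofHom (e.toRingHom.comp s')) := by
  refine IsPushout.of_iso h (Iso.refl _) (Iso.refl _) (Iso.refl _) e.toCommRingCatIso ?_ ?_ ?_ ?_
  · simp
  · simp
  · simp only [Iso.refl_hom, Category.id_comp]; rfl
  · simp only [Iso.refl_hom, Category.id_comp]; rfl

/-- base change with values in an equal algebra -/
def mapE {A B : Type} [CommRing A] [CommRing B] {φ : A →+* B} {d : Dat A} {d' : Dat B}
    (h : d' = d.map φ) : BB d →+* BB d' where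
  toFun x := ⟨φ x.a, φ x.b, φ x.p, φ x.q⟩
  map_one' := by subst h; exact (BB.map φ d).map_one
  map_zero' := by subst h; exact (BB.map φ d).map_zero
  map_add' x y := by subst h; exact (BB.map φ d).map_add x y
  map_mul' x y := by subst h; exact (BB.map φ d).map_mul x y

lemma mapE_apply {A B : Type} [CommRing A] [CommRing B] {φ : A →+* B} {d : Dat A} {d' : Dat B}
    (h : d' = d.map φ) (w : BB d) : mapE h w = ⟨φ w.a, φ w.b, φ w.p, φ w.q⟩ := rfl

/-- plain base change -/
noncomputable def bcCM : CM G (G.map φ) φ where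
  m₁ := BB.map (mapRingHom φ) G.d1
  m₂ := BB.map (mapRingHom φ) G.d2
  m₁₂ := mapE (Dat.map_L φ G.d1)
  h₁ := map_sc φ G.d1
  h₂ := map_sc φ G.d2
  c₁ w := by
    refine (mapE_apply _ _).trans ?_
    apply BB.ext
    · exact Lmap_toLaurent φ w.a
    · exact Lmap_toLaurent φ w.b
    · exact Lmap_toLaurent φ w.p
    · exact Lmap_toLaurent φ w.q
  c₂ w := by
    have e : inc2 G w = ⟨inv R (toLaurent w.a), G.g.c * inv R (toLaurent w.b),
        G.g.x * inv R (toLaurent w.p) + G.g.z * inv R (toLaurent w.q),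
        G.g.y * inv R (toLaurent w.p) + G.g.t * inv R (toLaurent w.q)⟩ :=
      Mor.hom_apply G.g _
    have e' : inc2 (G.map φ) (BB.map (mapRingHom φ) G.d2 w) =
        ⟨inv S (toLaurent (w.a.map φ)), Lmap φ G.g.c * inv S (toLaurent (w.b.map φ)),
        Lmap φ G.g.x * inv S (toLaurent (w.p.map φ)) +
          Lmap φ G.g.z * inv S (toLaurent (w.q.map φ)),
        Lmap φ G.g.y * inv S (toLaurent (w.p.map φ)) +
          Lmap φ G.g.t * inv S (toLaurent (w.q.map φ))⟩ :=
      Mor.hom_apply (G.map φ).g _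
    refine (mapE_apply _ _).trans (Eq.trans ?_ e'.symm)
    rw [e]
    apply BB.ext <;> simp only [map_mul, map_add, Lmap_inv, Lmap_toLaurent]

/-- the morphism attached to an isomorphism -/
lemma exists_cm {G : GD R} {G' : GD S} {φ : R →+* S} (h : GIso (G.map φ) G') :
    ∃ t : CM G G' φ, IsPushout (CommRingCat.ofHom (sc G.d1)) (CommRingCat.ofHom φ)
      (CommRingCat.ofHom t.m₁) (CommRingCat.ofHom (sc G'.d1)) ∧
      IsPushout (CommRingCat.ofHom (sc G.d2)) (CommRingCat.ofHom φ)
      (CommRingCat.ofHom t.m₂) (CommRingCat.ofHom (sc G'.d2)) ∧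
      ∃ e, t.m₁ (xx _) = e * xx _ := by
  obtain ⟨e1, e2, e, a1, a2, a3, a4, c, hc, a5⟩ := h
  have k1 : IsPushout (CommRingCat.ofHom (sc G.d1)) (CommRingCat.ofHom φ)
      (CommRingCat.ofHom (e1.toRingHom.comp (BB.map (mapRingHom φ) G.d1)))
      (CommRingCat.ofHom (sc G'.d1)) := by
    have hs : sc G'.d1 = e1.toRingHom.comp (sc (G.map φ).d1) :=
      RingHom.ext fun r => (a1 r).symm
    rw [hs]
    exact pushout_iso φ e1 (bb_pushout φ G.d1)
  have k2 : IsPushout (CommRingCat.ofHom (sc G.d2)) (CommRingCat.ofHom φ)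
      (CommRingCat.ofHom (e2.toRingHom.comp (BB.map (mapRingHom φ) G.d2)))
      (CommRingCat.ofHom (sc G'.d2)) := by
    have hs : sc G'.d2 = e2.toRingHom.comp (sc (G.map φ).d2) :=
      RingHom.ext fun r => (a2 r).symm
    rw [hs]
    exact pushout_iso φ e2 (bb_pushout φ G.d2)
  refine ⟨⟨e1.toRingHom.comp (bcCM G φ).m₁, e2.toRingHom.comp (bcCM G φ).m₂,
    e.toRingHom.comp (bcCM G φ).m₁₂, fun r => ?_, fun r => ?_, fun w => ?_, fun w => ?_⟩,
    ?_, ?_, c, ?_⟩
  · exact (congrArg e1 ((bcCM G φ).h₁ r)).trans (a1 _)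
  · exact (congrArg e2 ((bcCM G φ).h₂ r)).trans (a2 _)
  · exact (congrArg e ((bcCM G φ).c₁ w)).trans (a3 _)
  · exact (congrArg e ((bcCM G φ).c₂ w)).trans (a4 _)
  · exact k1
  · exact k2
  · exact (congrArg e1 (map_xx φ G.d1)).trans a5

theorem bc_of_iso {G : GD R} {G' : GD S} {φ : R →+* S} (h : GIso (G.map φ) G') :
    ∃ m : Crv G' ⟶ Crv G,
      IsPullback m (crvMap G') (crvMap G) (Spec.map (CommRingCat.ofHom φ)) := by
  obtain ⟨t, p₁, p₂, e, he⟩ := exists_cm h
  exact ⟨t.m, t.isPullback p₁ p₂ e he⟩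

theorem bc : S_bc := fun _ _ _ _ _ _ _ h => bc_of_iso h

end morphism

end Pool.Agent.H927.MG
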