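import Pool.Agent.H927.MG.Curve

/-!
# Base change of the data of a curve, isomorphisms of data
-/

set_option autoImplicit false

open AlgebraicGeometry CategoryTheory Limits Polynomial

open scoped LaurentPolynomial

open LaurentPolynomial (T invert T_add T_zero involutive_invert invert_T invert_C)

namespace Pool.Agent.H927.MG

open Pool.Agent.W523

variable {R S : Type} [CommRing R] [CommRing S]

/-- change of coefficients for Laurent polynomials -/
noncomputable def Lmap (φ : R →+* S) : R[T;T⁻¹] →+* S[T;T⁻¹] := AddMonoidAlgebra.mapRingHom ℤ φ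

lemma Lmap_C (φ : R →+* S) (r : R) : Lmap φ (LaurentPolynomial.C r) = LaurentPolynomial.C (φ r) := by
  exact AddMonoidAlgebra.map_single (φ : R →+ S) r (0 : ℤ)

lemma Lmap_T (φ : R →+* S) (n : ℤ) : Lmap φ (T n) = T n := by
  refine (AddMonoidAlgebra.map_single (φ : R →+ S) 1 n).trans ?_
  change AddMonoidAlgebra.single n (φ 1) = _
  rw [map_one]
  rfl

lemma Lmap_toLaurent (φ : R →+* S) (p : R[X]) :
    Lmap φ (toLaurent p) = toLaurent (p.map φ) := by
  induction p using Polynomial.induction_on' with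
  | add p q hp hq => simp only [map_add, Polynomial.map_add, hp, hq]
  | monomial n a =>
    rw [Polynomial.toLaurent_C_mul_T, map_mul, Lmap_C, Lmap_T, Polynomial.map_monomial,
      Polynomial.toLaurent_C_mul_T]

lemma Lmap_inv (φ : R →+* S) (p : R[T;T⁻¹]) : Lmap φ (inv R p) = inv S (Lmap φ p) := by
  induction p using LaurentPolynomial.induction_on' with
  | add p q hp hq => simp only [map_add, hp, hq]
  | C_mul_T n a =>
    rw [inv_apply, inv_apply]
    simp only [map_mul, invert_C, invert_T, Lmap_C, Lmap_T]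

/-- replace the data by equal data -/
def Mor.copy {A B : Type} [CommRing A] [CommRing B] {φ : A →+* B} {d : Dat A} {d' : Dat B}
    (g : Mor φ d d') {e : Dat A} {e' : Dat B} (h : e = d) (h' : e' = d') : Mor φ e e' where
  c := g.c
  x := g.x
  y := g.y
  z := g.z
  t := g.t
  e0 := by subst h h'; exact g.e0
  e1 := by subst h h'; exact g.e1
  e2 := by subst h h'; exact g.e2
  e3 := by subst h h'; exact g.e3
  e4 := by subst h h'; exact g.e4
  e5 := by subst h h'; exact g.e5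
  e6 := by subst h h'; exact g.e6
  e7 := by subst h h'; exact g.e7
  e8 := by subst h h'; exact g.e8
  e9 := by subst h h'; exact g.e9
  e10 := by subst h h'; exact g.e10

lemma Dat.map_L (φ : R →+* S) (d : Dat R[X]) :
    (d.map (mapRingHom φ)).L = d.L.map (Lmap φ) := by
  ext1 <;> simp [Lmap_toLaurent]

/-- base change of the data of a curve -/
noncomputable def GD.map (G : GD R) (φ : R →+* S) : GD S where
  d1 := G.d1.map (mapRingHom φ)
  d2 := G.d2.map (mapRingHom φ)
  g := (G.g.map (Lmap φ) (Lmap φ) (inv S) (RingHom.ext fun p => (Lmap_inv φ p).symm)).copy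
    (Dat.map_L φ G.d2) (Dat.map_L φ G.d1)
  hc := G.hc.map (Lmap φ)
  hdet := by
    have := G.hdet.map (Lmap φ)
    rwa [map_sub, map_mul, map_mul] at this

@[simp] lemma GD.map_d1 (G : GD R) (φ : R →+* S) : (G.map φ).d1 = G.d1.map (mapRingHom φ) := rfl
@[simp] lemma GD.map_d2 (G : GD R) (φ : R →+* S) : (G.map φ).d2 = G.d2.map (mapRingHom φ) := rfl
@[simp] lemma GD.map_c (G : GD R) (φ : R →+* S) : (G.map φ).g.c = Lmap φ G.g.c := rfl
@[simp] lemma GD.map_x (G : GD R) (φ : R →+* S) : (G.map φ).g.x = Lmap φ G.g.x := rfl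
@[simp] lemma GD.map_y (G : GD R) (φ : R →+* S) : (G.map φ).g.y = Lmap φ G.g.y := rfl
@[simp] lemma GD.map_z (G : GD R) (φ : R →+* S) : (G.map φ).g.z = Lmap φ G.g.z := rfl
@[simp] lemma GD.map_t (G : GD R) (φ : R →+* S) : (G.map φ).g.t = Lmap φ G.g.t := rfl

/-- two data agree if all their parts do -/
lemma GD.ext' {G G' : GD R} (h1 : G.d1 = G'.d1) (h2 : G.d2 = G'.d2) (hc : G.g.c = G'.g.c)
    (hx : G.g.x = G'.g.x) (hy : G.g.y = G'.g.y) (hz : G.g.z = G'.g.z) (ht : G.g.t = G'.g.t) :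
    G = G' := by
  obtain ⟨d1, d2, g, _, _⟩ := G
  obtain ⟨d1', d2', g', _, _⟩ := G'
  dsimp only at h1 h2
  subst h1 h2
  obtain ⟨c, x, y, z, t, _⟩ := g
  obtain ⟨c', x', y', z', t', _⟩ := g'
  dsimp only at hc hx hy hz ht
  subst hc hx hy hz ht
  rfl

lemma Lmap_comp {Q : Type} [CommRing Q] (φ : R →+* S) (ψ : S →+* Q) (p : R[T;T⁻¹]) :
    Lmap ψ (Lmap φ p) = Lmap (ψ.comp φ) p := by
  induction p using LaurentPolynomial.induction_on' with
  | add p q hp hq => simp only [map_add, hp, hq]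
  | C_mul_T n a => simp only [map_mul, Lmap_C, Lmap_T, RingHom.comp_apply]

lemma GD.map_map {Q : Type} [CommRing Q] (G : GD R) (φ : R →+* S) (ψ : S →+* Q) :
    (G.map φ).map ψ = G.map (ψ.comp φ) := by
  apply GD.ext'
  · simp only [GD.map_d1, Dat.map_map]
    rw [mapRingHom_comp]
  · simp only [GD.map_d2, Dat.map_map]
    rw [mapRingHom_comp]
  all_goals simp only [GD.map_c, GD.map_x, GD.map_y, GD.map_z, GD.map_t, Lmap_comp]

/-- Isomorphism of the data of two curves over the same base (up to a unit, the coordinate is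
preserved) -/
def GIso (G G' : GD R) : Prop :=
  ∃ (e1 : BB G.d1 ≃+* BB G'.d1) (e2 : BB G.d2 ≃+* BB G'.d2) (e : BB G.d1.L ≃+* BB G'.d1.L),
    (∀ r, e1 (sc _ r) = sc _ r) ∧ (∀ r, e2 (sc _ r) = sc _ r) ∧
    (∀ w, e (inc _ w) = inc _ (e1 w)) ∧ (∀ w, e (inc2 G w) = inc2 G' (e2 w)) ∧
    ∃ c, IsUnit c ∧ e1 (xx _) = c * xx _

lemma GIso.refl (G : GD R) : GIso G G :=
  ⟨RingEquiv.refl _, RingEquiv.refl _, RingEquiv.refl _, fun _ => rfl, fun _ => rfl, fun _ => rfl,
    fun _ => rfl, 1, isUnit_one, (one_mul _).symm⟩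

lemma GIso.trans {G G' G'' : GD R} (h : GIso G G') (h' : GIso G' G'') : GIso G G'' := by
  obtain ⟨e1, e2, e, a1, a2, a3, a4, c, hc, a5⟩ := h
  obtain ⟨e1', e2', e', b1, b2, b3, b4, c', hc', b5⟩ := h'
  refine ⟨e1.trans e1', e2.trans e2', e.trans e', fun r => ?_, fun r => ?_, fun w => ?_,
    fun w => ?_, e1' c * c', (hc.map e1').mul hc', ?_⟩
  · rw [RingEquiv.trans_apply, a1, b1]
  · rw [RingEquiv.trans_apply, a2, b2]
  · rw [RingEquiv.trans_apply, a3, b3, RingEquiv.trans_apply]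
  · rw [RingEquiv.trans_apply, a4, b4, RingEquiv.trans_apply]
  · rw [RingEquiv.trans_apply, a5, map_mul, b5, mul_assoc]

lemma GIso.symm {G G' : GD R} (h : GIso G G') : GIso G' G := by
  obtain ⟨e1, e2, e, a1, a2, a3, a4, c, hc, a5⟩ := h
  obtain ⟨c', hc'⟩ := hc.exists_right_inv
  refine ⟨e1.symm, e2.symm, e.symm, fun r => ?_, fun r => ?_, fun w => ?_,
    fun w => ?_, e1.symm c', ?_, ?_⟩
  · rw [← a1, RingEquiv.symm_apply_apply]
  · rw [← a2, RingEquiv.symm_apply_apply]
  · rw [RingEquiv.symm_apply_eq, a3, RingEquiv.apply_symm_apply]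
  · rw [RingEquiv.symm_apply_eq, a4, RingEquiv.apply_symm_apply]
  · exact (IsUnit.of_mul_eq_one_right _ hc').map _
  · rw [RingEquiv.symm_apply_eq, map_mul, RingEquiv.apply_symm_apply, a5, ← mul_assoc,
      mul_comm c', hc', one_mul]

/-- The cohomology of the structure sheaf is as it should be for a curve of genus `4` over a
field. -/
def Cohom {K : Type} [Field K] (G : GD K) : Prop :=
  (∀ w₁ w₂, inc G.d1 w₁ = inc2 G w₂ → ∃ r : K, w₁ = sc _ r) ∧
  ∃ B : Fin 4 → BB G.d1.L, ∀ w, ∃! a : Fin 4 → K,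
    ∃ w₁ w₂, w = (∑ i, inc G.d1 (sc _ (a i)) * B i) + inc G.d1 w₁ + inc2 G w₂

end Pool.Agent.H927.MG
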