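import Pool.Agent.H927.MG.Mor
import Pool.Graph.R_pool_sql_team_seeded_f72693b1.W523.Conn

/-!
# The curves glued from two charts
-/

set_option autoImplicit false

open AlgebraicGeometry CategoryTheory Limits Polynomial

open scoped LaurentPolynomial

open LaurentPolynomial (T invert T_add T_zero involutive_invert invert_T invert_C)

namespace Pool.Agent.H927.MG

open Pool.Agent.W523

variable {R : Type} [CommRing R]

/-- inversion of the coordinate -/
noncomputable def inv (R : Type) [CommRing R] : R[T;T⁻¹] →+* R[T;T⁻¹] :=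
  (invert : R[T;T⁻¹] ≃ₐ[R] R[T;T⁻¹]).toAlgHom.toRingHom

lemma inv_apply (z : R[T;T⁻¹]) : inv R z = invert z := rfl

lemma inv_bijective : Function.Bijective (inv R) :=
  (invert : R[T;T⁻¹] ≃ₐ[R] R[T;T⁻¹]).bijective

/-- the coefficients on the overlap of the charts -/
noncomputable abbrev Dat.L (d : Dat R[X]) : Dat R[T;T⁻¹] := d.map toLaurent

/-- The data of a curve over `R`: coefficients in the chart with coordinate `x` and in the chart
with coordinate `1/x`, and an isomorphism on the overlap. -/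
structure GD (R : Type) [CommRing R] where
  d1 : Dat R[X]
  d2 : Dat R[X]
  g : Mor (inv R) d2.L d1.L
  hc : IsUnit g.c
  hdet : IsUnit (g.x * g.t - g.y * g.z)

/-- the inclusion of the ring of the chart in the ring of the overlap -/
noncomputable def inc (d : Dat R[X]) : BB d →+* BB d.L := BB.map toLaurent d

lemma inc_injective (d : Dat R[X]) : Function.Injective (inc d) :=
  BB.map_injective _ toLaurent_injective

/-- the coordinate function `x` -/
noncomputable def xx (d : Dat R[X]) : BB d := BB.of d X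

lemma inc_xx (d : Dat R[X]) : inc d (xx d) = BB.of d.L (T 1) := by
  rw [inc, xx, BB.map_of, toLaurent_X]

lemma isUnit_T (d : Dat R[X]) (n : ℤ) : IsUnit (BB.of d.L (T n)) :=
  (LaurentPolynomial.isUnit_T n).map _

lemma isLocalization_inc (d : Dat R[X]) :
    @IsLocalization.Away (BB d) _ (xx d) (BB d.L) _ (inc d).toAlgebra := by
  let _ := (inc d).toAlgebra
  have hal : ∀ z, algebraMap (BB d) (BB d.L) z = inc d z := fun z => rfl
  refine (isLocalization_iff _ _).2 ⟨?_, ?_, ?_⟩
  · rintro ⟨_, n, rfl⟩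
    rw [hal, map_pow, inc_xx]
    exact (isUnit_T d 1).pow n
  · intro z
    obtain ⟨n₁, p₁, h₁⟩ := LaurentPolynomial.exists_T_pow z.a
    obtain ⟨n₂, p₂, h₂⟩ := LaurentPolynomial.exists_T_pow z.b
    obtain ⟨n₃, p₃, h₃⟩ := LaurentPolynomial.exists_T_pow z.p
    obtain ⟨n₄, p₄, h₄⟩ := LaurentPolynomial.exists_T_pow z.q
    refine ⟨⟨⟨X ^ (n₂ + n₃ + n₄) * p₁, X ^ (n₁ + n₃ + n₄) * p₂, X ^ (n₁ + n₂ + n₄) * p₃,
      X ^ (n₁ + n₂ + n₃) * p₄⟩, ⟨xx d ^ (n₁ + n₂ + n₃ + n₄), n₁ + n₂ + n₃ + n₄, rfl⟩⟩, ?_⟩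
    rw [hal, hal, map_pow, inc_xx, ← map_pow, LaurentPolynomial.T_pow]
    apply BB.ext
    · simp only [BB.mul_a, inc, BB.map_a', BB.of_a, BB.of_b, BB.of_p, BB.of_q, map_mul, h₁,
        Polynomial.toLaurent_X_pow, mul_zero, zero_mul, add_zero]
      rw [mul_comm (T _) (z.a * _), mul_assoc, ← T_add]
      congr 2; push_cast; ring
    · simp only [BB.mul_b, inc, BB.map_b', BB.of_a, BB.of_b, BB.of_p, BB.of_q, map_mul, h₂,
        Polynomial.toLaurent_X_pow, mul_zero, zero_mul, add_zero, zero_add, sub_zero]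
      rw [mul_comm (T _) (z.b * _), mul_assoc, ← T_add]
      congr 2; push_cast; ring
    · simp only [BB.mul_p, inc, BB.map_p', BB.of_a, BB.of_b, BB.of_p, BB.of_q, map_mul, h₃,
        Polynomial.toLaurent_X_pow, mul_zero, zero_mul, add_zero, zero_add, sub_zero]
      rw [mul_comm (T _) (z.p * _), mul_assoc, ← T_add]
      congr 2; push_cast; ring
    · simp only [BB.mul_q, inc, BB.map_q', BB.of_a, BB.of_b, BB.of_p, BB.of_q, map_mul, h₄,
        Polynomial.toLaurent_X_pow, mul_zero, zero_mul, add_zero, zero_add, sub_zero]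
      rw [mul_comm (T _) (z.q * _), mul_assoc, ← T_add]
      congr 2; push_cast; ring
  · intro a b h
    rw [hal, hal] at h
    exact ⟨1, by rw [inc_injective d h]⟩

/-- universal property of the overlap -/
lemma exists_extend (d : Dat R[X]) {K : Type} [CommRing K] (φ : BB d →+* K)
    (h : IsUnit (φ (xx d))) : ∃ φ' : BB d.L →+* K, φ'.comp (inc d) = φ := by
  let _ := (inc d).toAlgebra
  have := isLocalization_inc d
  refine ⟨IsLocalization.Away.lift (S := BB d.L) (xx d) h, ?_⟩
  exact IsLocalization.Away.lift_comp (xx d) h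

variable (G : GD R)

/-- the two overlap rings are the same -/
noncomputable def iEquiv : BB G.d2.L ≃+* BB G.d1.L :=
  RingEquiv.ofBijective G.g.hom (G.g.bijective inv_bijective G.hc G.hdet)

lemma iEquiv_apply (z : BB G.d2.L) : iEquiv G z = G.g.hom z := rfl

/-- the inclusion of the second chart in the overlap -/
noncomputable def inc2 : BB G.d2 →+* BB G.d1.L := G.g.hom.comp (inc G.d2)

lemma inc2_injective : Function.Injective (inc2 G) :=
  (G.g.bijective inv_bijective G.hc G.hdet).1.comp (inc_injective _)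

lemma exists_extend2 {K : Type} [CommRing K] (φ : BB G.d2 →+* K) (h : IsUnit (φ (xx G.d2))) :
    ∃ φ' : BB G.d1.L →+* K, φ'.comp (inc2 G) = φ := by
  obtain ⟨φ', h'⟩ := exists_extend _ φ h
  refine ⟨φ'.comp (iEquiv G).symm.toRingHom, ?_⟩
  rw [← h']
  ext1 z
  change φ' ((iEquiv G).symm (iEquiv G (inc G.d2 z))) = φ' (inc G.d2 z)
  rw [RingEquiv.symm_apply_apply]

lemma inc2_xx : inc2 G (xx _) = BB.of G.d1.L (T (-1)) := by
  rw [inc2, RingHom.comp_apply, inc_xx, Mor.hom_of, inv_apply, invert_T]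

lemma inc_mul_inc2 : inc G.d1 (xx _) * inc2 G (xx _) = 1 := by
  rw [inc2_xx, inc_xx, ← map_mul, ← T_add, add_neg_cancel, T_zero, map_one]

/-- the scalars -/
noncomputable def sc (d : Dat R[X]) : R →+* BB d := (BB.of d).comp Polynomial.C

lemma sc_apply (d : Dat R[X]) (r : R) : sc d r = BB.of d (C r) := rfl

lemma inc_sc_apply (d : Dat R[X]) (r : R) : inc d (sc d r) = BB.of d.L (LaurentPolynomial.C r) := by
  rw [sc_apply, inc, BB.map_of, toLaurent_C]

lemma inc2_sc_apply (r : R) : inc2 G (sc G.d2 r) = BB.of G.d1.L (LaurentPolynomial.C r) := by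
  rw [inc2, RingHom.comp_apply, inc_sc_apply, Mor.hom_of, inv_apply, invert_C]

lemma inc_sc : (inc G.d1).comp (sc _) = (inc2 G).comp (sc _) := by
  ext1 r
  rw [RingHom.comp_apply, RingHom.comp_apply, inc_sc_apply, inc2_sc_apply]

lemma isIntegral_eval (d : Dat R[X]) : (Polynomial.eval₂RingHom (sc d) (xx d)).IsIntegral := by
  have h : Polynomial.eval₂RingHom (sc d) (xx d) = algebraMap R[X] (BB d) := by
    apply Polynomial.ringHom_ext
    · intro r; simp [sc]
    · simp; rfl
  rw [h]
  exact algebraMap_isIntegral_iff.2 inferInstance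

lemma finiteType_sc (d : Dat R[X]) : (sc d).FiniteType := by
  apply RingHom.FiniteType.comp
  · rw [← BB.algebraMap_eq, RingHom.finiteType_algebraMap]; infer_instance
  · exact (RingHom.finiteType_algebraMap (A := R) (B := R[X])).2 inferInstance

instance open_inc (d : Dat R[X]) : IsOpenImmersion (Spec.map (CommRingCat.ofHom (inc d))) := by
  let _ := (inc d).toAlgebra
  have := isLocalization_inc d
  exact IsOpenImmersion.of_isLocalization (R := BB d) (S := BB d.L) (xx d)

instance open_inc2 : IsOpenImmersion (Spec.map (CommRingCat.ofHom (inc2 G))) := by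
  have h : Spec.map (CommRingCat.ofHom (inc2 G)) =
      Spec.map (CommRingCat.ofHom (iEquiv G).toRingHom) ≫
        Spec.map (CommRingCat.ofHom (inc G.d2)) := by
    rw [← Spec.map_comp, ← CommRingCat.ofHom_comp]
    rfl
  have : IsIso (Spec.map (CommRingCat.ofHom (iEquiv G).toRingHom)) := by
    have : IsIso (CommRingCat.ofHom (iEquiv G).toRingHom) :=
      (iEquiv G).toCommRingCatIso.isIso_hom
    infer_instance
  rw [h]
  infer_instance

/-- the curve -/
noncomputable def Crv : Scheme.{0} :=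
  pushout (Spec.map (CommRingCat.ofHom (inc G.d1))) (Spec.map (CommRingCat.ofHom (inc2 G)))

/-- its structure morphism -/
noncomputable def crvMap : Crv G ⟶ Spec (.of R) :=
  pushout.desc (Spec.map (CommRingCat.ofHom (sc G.d1)))
    (Spec.map (CommRingCat.ofHom (sc G.d2))) (by
      rw [← Spec.map_comp, ← Spec.map_comp, ← CommRingCat.ofHom_comp, ← CommRingCat.ofHom_comp,
        inc_sc])

/-- the two charts -/
noncomputable def crvCharts : Charts R (BB G.d1) (BB G.d2) (BB G.d1.L) (crvMap G) where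
  s₁ := sc _
  s₂ := sc _
  r₁ := inc _
  r₂ := inc2 G
  x := xx _
  u := xx _
  j₁ := pushout.inl _ _
  j₂ := pushout.inr _ _
  o₁ := inl_open _ _
  o₂ := inr_open _ _
  h₁ := pushout.inl_desc _ _ _
  h₂ := pushout.inr_desc _ _ _
  cov := pushout_cases _ _
  pb := pushout_isPullback _ _
  mul := inc_mul_inc2 G
  l₁ := exists_extend _
  l₂ := exists_extend2 G

lemma crv_proper [IsNoetherianRing R] : IsProper (crvMap G) :=
  (crvCharts G).proper (isIntegral_eval _) (isIntegral_eval _) (finiteType_sc _)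
    (finiteType_sc _)

end Pool.Agent.H927.MG
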