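import Pool.Agent.H927.MG.BC

/-!
# Families of curves of genus four from their data
-/

set_option autoImplicit false

open AlgebraicGeometry CategoryTheory Limits Polynomial

open scoped LaurentPolynomial

namespace Pool.Agent.H927.MG

open Pool.Agent.W523

theorem family (h1 : S_smooth) (h2 : S_conn) (h3 : S_genus) : S_family := by
  intro R _ _ _ G hu g1 g2 hc
  have bcp : ∀ (K : Type) [Field K] (φ : R →+* K), ∃ m : Crv (G.map φ) ⟶ Crv G,
      IsPullback m (crvMap (G.map φ)) (crvMap G) (Spec.map (CommRingCat.ofHom φ)) :=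
    fun K _ φ => bc_of_iso (GIso.refl _)
  refine ⟨h1 R G hu g1 g2, crv_proper G, ⟨?_⟩, ?_⟩
  · intro K _ y Z fst snd h
    let φ := (Spec.preimage y).hom
    have hy : y = Spec.map (CommRingCat.ofHom φ) := by
      rw [CommRingCat.ofHom_hom, Spec.map_preimage]
    rw [hy] at h
    obtain ⟨m, hb⟩ := bcp K φ
    let e := hb.isoIsPullback _ _ h
    have := h2 K (G.map φ) (hc K φ)
    exact (Scheme.homeoOfIso e).surjective.connectedSpace (Scheme.homeoOfIso e).continuous
  · intro K _ y Z fst snd h
    let φ := (Spec.preimage y).hom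
    have hy : y = Spec.map (CommRingCat.ofHom φ) := by
      rw [CommRingCat.ofHom_hom, Spec.map_preimage]
    rw [hy] at h
    obtain ⟨m, hb⟩ := bcp K φ
    let e := hb.isoIsPullback _ _ h
    exact (h3 K (G.map φ) (hc K φ)).of_iso e.hom (hb.isoIsPullback_hom_snd _ _ h)

/-- the members of the family -/
theorem par_family (h : S_family) (hc : S_cohom_h) (hg : S_good) {R : Type} [CommRing R]
    [IsNoetherianRing R] [Nontrivial R] (P : Par R) (h6 : IsUnit (6 : R)) :
    IsCurveFamily 4 (crvMap P.gd) := by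
  have h2 : IsUnit (2 : R) := isUnit_of_dvd_unit ⟨3, by norm_num⟩ h6
  refine h R P.gd h2 (hg R P h6).1 (hg R P h6).2 ?_
  intro K _ φ
  rw [P.gd_map]
  exact hc K _ _ _ _ _ _ _ _ _ _ _

end Pool.Agent.H927.MG
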