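import Pool.Agent.H927.MG.Curve

/-!
# The projective line
-/

set_option autoImplicit false

open AlgebraicGeometry CategoryTheory Limits Polynomial

open scoped LaurentPolynomial

open LaurentPolynomial (T invert T_add T_zero involutive_invert invert_T invert_C)

namespace Pool.Agent.H927.MG

open Pool.Agent.W523

instance open_toLaurent :
    IsOpenImmersion (Spec.map (CommRingCat.ofHom (toLaurent : ℂ[X] →+* ℂ[T;T⁻¹]))) := by
  have h : (toLaurent : ℂ[X] →+* ℂ[T;T⁻¹]) = algebraMap ℂ[X] ℂ[T;T⁻¹] :=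
    RingHom.ext fun p => (LaurentPolynomial.algebraMap_eq_toLaurent p).symm
  rw [h]
  exact IsOpenImmersion.of_isLocalization (R := ℂ[X]) (S := ℂ[T;T⁻¹]) X

instance open_inv_toLaurent :
    IsOpenImmersion (Spec.map (CommRingCat.ofHom ((inv ℂ).comp (toLaurent : ℂ[X] →+* ℂ[T;T⁻¹])))) := by
  have h : Spec.map (CommRingCat.ofHom ((inv ℂ).comp (toLaurent : ℂ[X] →+* ℂ[T;T⁻¹]))) =
      Spec.map (CommRingCat.ofHom (RingEquiv.ofBijective (inv ℂ) inv_bijective).toRingHom) ≫
        Spec.map (CommRingCat.ofHom (toLaurent : ℂ[X] →+* ℂ[T;T⁻¹])) := by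
    rw [← Spec.map_comp, ← CommRingCat.ofHom_comp]
    rfl
  have : IsIso (Spec.map (CommRingCat.ofHom
      (RingEquiv.ofBijective (inv ℂ) inv_bijective).toRingHom)) := by
    have : IsIso (CommRingCat.ofHom (RingEquiv.ofBijective (inv ℂ) inv_bijective).toRingHom) :=
      (RingEquiv.ofBijective (inv ℂ) inv_bijective).toCommRingCatIso.isIso_hom
    infer_instance
  rw [h]
  infer_instance

/-- The projective line over `ℂ`: two affine lines with coordinates `t` and `1 / t`, glued along
the complements of the origins. -/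
noncomputable def P1 : Scheme.{0} :=
  pushout (Spec.map (CommRingCat.ofHom (toLaurent : ℂ[X] →+* ℂ[T;T⁻¹])))
    (Spec.map (CommRingCat.ofHom ((inv ℂ).comp (toLaurent : ℂ[X] →+* ℂ[T;T⁻¹]))))

/-- its structure morphism -/
noncomputable def P1map : P1 ⟶ Spec (.of ℂ) :=
  pushout.desc (Spec.map (CommRingCat.ofHom C)) (Spec.map (CommRingCat.ofHom C)) (by
    rw [← Spec.map_comp, ← Spec.map_comp, ← CommRingCat.ofHom_comp, ← CommRingCat.ofHom_comp]
    congr 2
    ext r
    simp [inv_apply])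

/-- The scheme `M` over `ℂ` contains a projective line: there is a morphism over `ℂ` from the
projective line to `M` which takes different values at two complex points. -/
def ContainsP1 {M : Scheme.{0}} (sM : M ⟶ Spec (.of ℂ)) : Prop :=
  ∃ φ : P1 ⟶ M, φ ≫ sM = P1map ∧ ∃ p q : Spec (.of ℂ) ⟶ P1,
    p ≫ P1map = 𝟙 _ ∧ q ≫ P1map = 𝟙 _ ∧ p ≫ φ ≠ q ≫ φ

attribute [local instance] MvPolynomial.gradedAlgebra in
/-- Mathlib's projective line over `ℂ` -/
noncomputable abbrev Pj : Scheme.{0} := Proj (MvPolynomial.homogeneousSubmodule (Fin 2) ℂ)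

attribute [local instance] MvPolynomial.gradedAlgebra in
/-- its structure morphism -/
noncomputable def Pjmap : Pj ⟶ Spec (.of ℂ) :=
  Proj.toSpecZero (MvPolynomial.homogeneousSubmodule (Fin 2) ℂ) ≫
    Spec.map (CommRingCat.ofHom
      (algebraMap ℂ (MvPolynomial.homogeneousSubmodule (Fin 2) ℂ 0)))

/-- PJ -/
def S_proj : Prop := ∃ e : P1 ≅ Pj, e.hom ≫ Pjmap = P1map

end Pool.Agent.H927.MG
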