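import Pool.Agent.H927.MG.Family
import Pool.Agent.H927.MG.P1

/-!
# A projective line in the coarse moduli space of curves of genus four
-/

set_option autoImplicit false

open AlgebraicGeometry CategoryTheory Limits Polynomial

open scoped LaurentPolynomial

open LaurentPolynomial (T invert T_add T_zero involutive_invert invert_T invert_C)

namespace Pool.Agent.H927.MG

open Pool.Agent.W523

lemma isDominant_of_inj {A B : Type} [CommRing A] [CommRing B] (φ : A →+* B)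
    (h : Function.Injective φ) : IsDominant (Spec.map (CommRingCat.ofHom φ)) := by
  rw [isDominant_iff]
  exact PrimeSpectrum.denseRange_comap_iff_ker_le_nilRadical _ |>.2 (by
    intro x hx
    rw [RingHom.mem_ker] at hx
    have : x = 0 := h (hx.trans (map_zero φ).symm)
    rw [this]; exact zero_mem _)

/-! ### Arcs -/

lemma arc_C (s : PowerSeries ℂ) (c : ℂ) : arc s (C c) = PowerSeries.C c := by simp [arc]

lemma arc_X (s : PowerSeries ℂ) : arc s X = s := by simp [arc]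

lemma arc_injective {s : PowerSeries ℂ} (hs : ∀ c, s ≠ PowerSeries.C c) :
    Function.Injective (arc s) := by
  rw [injective_iff_map_eq_zero]
  intro p
  induction hn : p.natDegree using Nat.strong_induction_on generalizing p with
  | _ n ih =>
  · intro hp
    by_contra h0
    by_cases hd : p.natDegree = 0
    · obtain ⟨c, rfl⟩ := natDegree_eq_zero.1 hd
      rw [arc_C] at hp
      apply h0
      have : c = 0 := by
        have := congrArg PowerSeries.constantCoeff hp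
        simpa using this
      rw [this, map_zero]
    · obtain ⟨a, ha⟩ := IsAlgClosed.exists_root p (by
        rw [degree_eq_natDegree h0]; exact_mod_cast hd)
      obtain ⟨q, rfl⟩ := dvd_iff_isRoot.2 ha
      have hq : q ≠ 0 := by rintro rfl; simp at h0
      rw [map_mul, map_sub, arc_X, arc_C] at hp
      have h1 : arc s q = 0 := (mul_eq_zero.1 hp).resolve_left (sub_ne_zero.2 (hs a))
      refine hq (ih q.natDegree ?_ q rfl h1)
      rw [← hn, natDegree_mul (X_sub_C_ne_zero a) hq, natDegree_X_sub_C]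
      omega

/-- An arc in the moduli space of curves with coordinate `u = p / q`. -/
structure IsArc (G : GD (PowerSeries ℂ)) (p q : PowerSeries ℂ) : Prop where
  fam : IsCurveFamily 4 (crvMap G)
  cls : ∀ (Ω : Type) [Field Ω] [IsAlgClosed Ω] (a : PowerSeries ℂ →+* Ω),
    Function.Injective a → ∃ P : Par Ω, P.z ≠ 0 ∧ hU P.σ P.z * a q = a p * P.z ^ 6 ∧
      GIso (G.map a) P.gd
  q0 : q ≠ 0
  nc : ∀ c : ℂ, p ≠ PowerSeries.C c * q

section cl

variable {M : Scheme.{0}} {sM : M ⟶ Spec (.of ℂ)} (τ : ModuliTransformation 4 sM)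

lemma cl_iso {R S : Type} [CommRing R] [CommRing S] {G : GD R} {G' : GD S} {φ : R →+* S}
    (hi : GIso (G.map φ) G') (h : IsCurveFamily 4 (crvMap G)) (h' : IsCurveFamily 4 (crvMap G'))
    (γ : ℂ →+* R) (γ' : ℂ →+* S) (hγ : φ.comp γ = γ') :
    τ.cl (Spec.map (CommRingCat.ofHom γ')) (crvMap G') h' =
      Spec.map (CommRingCat.ofHom φ) ≫ τ.cl (Spec.map (CommRingCat.ofHom γ)) (crvMap G) h := by
  subst hγ
  obtain ⟨m, hm⟩ := bc_of_iso hi
  rw [CommRingCat.ofHom_comp, Spec.map_comp]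
  exact τ.natural _ _ h _ h' m _ hm

/-- the class of an arc -/
noncomputable def rho {G : GD (PowerSeries ℂ)} {p q : PowerSeries ℂ} (h : IsArc G p q) :
    Spec (.of (PowerSeries ℂ)) ⟶ M :=
  τ.cl (Spec.map (CommRingCat.ofHom PowerSeries.C)) (crvMap G) h.fam

lemma rho_over {G : GD (PowerSeries ℂ)} {p q : PowerSeries ℂ} (h : IsArc G p q) :
    rho τ h ≫ sM = Spec.map (CommRingCat.ofHom (PowerSeries.C : ℂ →+* PowerSeries ℂ)) :=
  τ.cl_over _ _ _

variable (hfam : S_family) (hch : S_cohom_h) (hgood : S_good) (hiso : S_iso)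

include hfam hch hgood hiso in
lemma rho_eq {G G' : GD (PowerSeries ℂ)} {p q p' q' : PowerSeries ℂ} (h : IsArc G p q)
    (h' : IsArc G' p' q') {Ω : Type} [Field Ω] [IsAlgClosed Ω] (a a' : PowerSeries ℂ →+* Ω)
    (ha : Function.Injective a) (ha' : Function.Injective a')
    (hc : a.comp PowerSeries.C = a'.comp PowerSeries.C) (he : a p * a' q' = a' p' * a q) :
    Spec.map (CommRingCat.ofHom a) ≫ rho τ h = Spec.map (CommRingCat.ofHom a') ≫ rho τ h' := by
  have : CharZero Ω := charZero_of_injective_ringHom (a.comp PowerSeries.C).injective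
  obtain ⟨P, hz, hP, i1⟩ := h.cls Ω a ha
  obtain ⟨P', hz', hP', i2⟩ := h'.cls Ω a' ha'
  have hq : a q ≠ 0 := by rw [Ne, map_eq_zero_iff a ha]; exact h.q0
  have hq' : a' q' ≠ 0 := by rw [Ne, map_eq_zero_iff a' ha']; exact h'.q0
  have hz6 : P.z ^ 6 ≠ 0 := pow_ne_zero _ hz
  -- the coordinates agree
  have key : hU P.σ P.z * P'.z ^ 6 = hU P'.σ P'.z * P.z ^ 6 := by
    apply mul_right_cancel₀ (mul_ne_zero hq hq')
    linear_combination (P'.z ^ 6 * a' q') * hP - (P.z ^ 6 * a q) * hP' +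
      (P.z ^ 6 * P'.z ^ 6) * he
  have n1 : P.σ ≠ 0 := by
    intro h0
    rw [hU, h0] at hP
    apply h.nc 1
    apply ha
    rw [map_one, one_mul]
    apply mul_right_cancel₀ hz6
    linear_combination -hP
  have n2 : hU P.σ P.z ≠ 0 := by
    intro h0
    rw [h0, zero_mul] at hP
    apply h.nc 0
    apply ha
    rw [map_zero, zero_mul, map_zero]
    exact (mul_eq_zero.1 hP.symm).resolve_right hz6
  have n3 : hU P.σ P.z + 8 * P.z ^ 6 ≠ 0 := by
    intro h0
    apply h.nc (-8)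
    apply ha
    apply mul_right_cancel₀ hz6
    have e8 : a (PowerSeries.C (-8 : ℂ)) = -8 := by
      have : (PowerSeries.C (-8 : ℂ)) = -8 := by
        rw [map_neg, map_ofNat]
      rw [this, map_neg, map_ofNat]
    rw [map_mul, e8]
    linear_combination -hP + a q * h0
  have i3 : GIso P.gd P'.gd := hiso Ω P P' hz hz' n1 n2 n3 key
  have h6 : IsUnit (6 : Ω) := isUnit_iff_ne_zero.2 (by norm_num)
  have hf : IsCurveFamily 4 (crvMap P'.gd) := par_family hfam hch hgood P' h6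
  have c1 := cl_iso τ (i1.trans i3) h.fam hf PowerSeries.C _ rfl
  have c2 := cl_iso τ i2 h'.fam hf PowerSeries.C _ hc.symm
  rw [rho, rho, ← c1, ← c2]

end cl

/-! ### The arcs of the family -/

lemma pX6_ne (c d : ℂ) : (PowerSeries.C d + PowerSeries.X ^ 6 : PowerSeries ℂ) ≠
    PowerSeries.C c := by
  intro h
  have := congrArg (PowerSeries.coeff 6) h
  simp at this

/-- the coordinate `u = 1 + (σ₀ + X⁶)²` -/
noncomputable def uu (σ₀ : ℂ) : PowerSeries ℂ :=
  (PowerSeries.C σ₀ + PowerSeries.X ^ 6) ^ 2 + 1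

lemma uu_const (σ₀ : ℂ) : PowerSeries.constantCoeff (uu σ₀) = σ₀ ^ 2 + 1 := by
  simp [uu]

lemma uu_ne (σ₀ c : ℂ) : uu σ₀ ≠ PowerSeries.C c := by
  intro h
  obtain ⟨e, he⟩ := IsAlgClosed.exists_pow_nat_eq (c - 1) (n := 2) (by norm_num)
  have h1 : (PowerSeries.C σ₀ + PowerSeries.X ^ 6 - PowerSeries.C e) *
      (PowerSeries.C σ₀ + PowerSeries.X ^ 6 + PowerSeries.C e) = (0 : PowerSeries ℂ) := by
    have h2 : (PowerSeries.C e : PowerSeries ℂ) ^ 2 = PowerSeries.C c - 1 := by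
      rw [← map_pow, he, map_sub, map_one]
    rw [uu] at h
    linear_combination h - h2
  rcases mul_eq_zero.1 h1 with h2 | h2
  · exact pX6_ne e σ₀ (by linear_combination h2)
  · exact pX6_ne (-e) σ₀ (by rw [map_neg]; linear_combination h2)

variable (hfam : S_family) (hch : S_cohom_h) (hgood : S_good) (hiso : S_iso)

lemma isUnit6 : IsUnit (6 : PowerSeries ℂ) := by
  have : (6 : PowerSeries ℂ) = PowerSeries.C 6 := (map_ofNat PowerSeries.C 6).symm
  rw [this]
  exact (isUnit_iff_ne_zero.2 (by norm_num)).map PowerSeries.C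

include hfam hch hgood in
lemma arc_ordinary {σ₀ : ℂ} (P : Par (PowerSeries ℂ))
    (hσ : P.σ = PowerSeries.C σ₀ + PowerSeries.X ^ 6) (hz : P.z = 1) : IsArc P.gd (uu σ₀) 1 where
  fam := par_family hfam hch hgood P isUnit6
  cls := fun Ω _ _ a ha => ⟨P.map a, by
      change a P.z ≠ 0
      rw [hz, map_one]; exact one_ne_zero, by
      change hU (a P.σ) (a P.z) * a 1 = _ * (a P.z) ^ 6
      rw [hz, hσ, map_one, uu, hU]
      simp, by
      rw [P.gd_map]; exact GIso.refl _⟩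
  q0 := one_ne_zero
  nc := fun c => by rw [mul_one]; exact uu_ne σ₀ c

include hfam hch hgood in
lemma arc_infinite (P : Par (PowerSeries ℂ)) (hσ : P.σ = 1) (hz : P.z = PowerSeries.X) :
    IsArc P.gd (1 + PowerSeries.X ^ 6) (PowerSeries.X ^ 6) where
  fam := par_family hfam hch hgood P isUnit6
  cls := fun Ω _ _ a ha => ⟨P.map a, by
      change a P.z ≠ 0
      rw [hz, Ne, map_eq_zero_iff a ha]; exact PowerSeries.X_ne_zero, by
      change hU (a P.σ) (a P.z) * a _ = _ * (a P.z) ^ 6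
      rw [hz, hσ, hU]
      simp, by
      rw [P.gd_map]; exact GIso.refl _⟩
  q0 := pow_ne_zero _ PowerSeries.X_ne_zero
  nc := fun c h => by
    have := congrArg PowerSeries.constantCoeff h
    simp at this

lemma arc_special {σ₀ : ℂ} {G : GD (PowerSeries ℂ)} (hG : IsCurveFamily 4 (crvMap G))
    (h : ∀ (Ω : Type) [Field Ω] [IsAlgClosed Ω] (a : PowerSeries ℂ →+* Ω), Function.Injective a →
    ∃ P : Par Ω, P.σ = a (PowerSeries.C σ₀ + PowerSeries.X ^ 6) ∧ P.z = 1 ∧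
      GIso (G.map a) P.gd) : IsArc G (uu σ₀) 1 where
  fam := hG
  cls := fun Ω _ _ a ha => by
    obtain ⟨P, h1, h2, h3⟩ := h Ω a ha
    refine ⟨P, by rw [h2]; exact one_ne_zero, ?_, h3⟩
    rw [h2, h1, uu, hU]
    simp
  q0 := one_ne_zero
  nc := fun c => by rw [mul_one]; exact uu_ne σ₀ c

variable (harcs : S_arcs) (hsp : S_special)

include hfam hch hgood harcs hsp in
/-- there is an arc at every point of the `u`-line -/
lemma exists_arc (u₀ : ℂ) : ∃ (σ₀ : ℂ) (G : GD (PowerSeries ℂ)), σ₀ ^ 2 + 1 = u₀ ∧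
    IsArc G (uu σ₀) 1 ∧ (u₀ ^ 2 + 8 ≠ 0 → ∃ P : Par (PowerSeries ℂ),
      P.σ = PowerSeries.C σ₀ + PowerSeries.X ^ 6 ∧ P.z = 1 ∧ P.gd = G) := by
  by_cases h : u₀ ^ 2 + 8 = 0
  · have h1 : ((u₀ + 2) / 2) ^ 2 + 1 = u₀ := by linear_combination (1 / 4 : ℂ) * h
    obtain ⟨G, hG, hG'⟩ := hsp ((u₀ + 2) / 2) (by linear_combination (1 / 4 : ℂ) * h)
    exact ⟨(u₀ + 2) / 2, G, h1, arc_special hG hG', fun h' => absurd h h'⟩
  · obtain ⟨σ₀, hσ⟩ := IsAlgClosed.exists_pow_nat_eq (u₀ - 1) (n := 2) (by norm_num)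
    have h1 : σ₀ ^ 2 + 1 = u₀ := by rw [hσ]; ring
    obtain ⟨P, hP, hP'⟩ := harcs.1 σ₀ (by rw [h1]; exact h)
    exact ⟨σ₀, P.gd, h1, arc_ordinary hfam hch hgood P hP hP', fun _ => ⟨P, hP, hP', rfl⟩⟩

section glue

variable {M : Scheme.{0}} {sM : M ⟶ Spec (.of ℂ)}

/-- the first affine line -/
noncomputable def i0 : Spec (.of ℂ[X]) ⟶ P1 := pushout.inl _ _

/-- the second affine line -/
noncomputable def i1 : Spec (.of ℂ[X]) ⟶ P1 := pushout.inr _ _

lemma P1_ext {N : Scheme.{0}} {a b : P1 ⟶ N} (h0 : i0 ≫ a = i0 ≫ b) (h1 : i1 ≫ a = i1 ≫ b) :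
    a = b := pushout.hom_ext h0 h1

lemma i0_map : i0 ≫ P1map = Spec.map (CommRingCat.ofHom C) := pushout.inl_desc _ _ _

lemma i1_map : i1 ≫ P1map = Spec.map (CommRingCat.ofHom C) := pushout.inr_desc _ _ _

lemma P1_desc (φ₁ φ₂ : Spec (.of ℂ[X]) ⟶ M)
    (h : Spec.map (CommRingCat.ofHom (toLaurent : ℂ[X] →+* ℂ[T;T⁻¹])) ≫ φ₁ =
      Spec.map (CommRingCat.ofHom ((inv ℂ).comp (toLaurent : ℂ[X] →+* ℂ[T;T⁻¹]))) ≫ φ₂) :
    ∃ φ : P1 ⟶ M, i0 ≫ φ = φ₁ ∧ i1 ≫ φ = φ₂ :=
  ⟨pushout.desc φ₁ φ₂ h, pushout.inl_desc _ _ _, pushout.inr_desc _ _ _⟩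

/-- gluing of two morphisms on the projective line -/
lemma exists_P1 [IsSeparated sM] (φ₁ φ₂ : Spec (.of ℂ[X]) ⟶ M)
    (h₁ : φ₁ ≫ sM = Spec.map (CommRingCat.ofHom C)) (h₂ : φ₂ ≫ sM = Spec.map (CommRingCat.ofHom C))
    (p s : PowerSeries ℂ) (hs : p * s = 1) (hp : ∀ c, p ≠ PowerSeries.C c)
    (h : Spec.map (CommRingCat.ofHom (arc p)) ≫ φ₁ = Spec.map (CommRingCat.ofHom (arc s)) ≫ φ₂) :
    ∃ φ : P1 ⟶ M, φ ≫ sM = P1map ∧ i0 ≫ φ = φ₁ := by
  let e : ℂ[T;T⁻¹] →+* PowerSeries ℂ := LaurentPolynomial.eval₂ PowerSeries.C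
    ⟨p, s, hs, by rw [mul_comm, hs]⟩
  have e1 : e.comp (toLaurent : ℂ[X] →+* ℂ[T;T⁻¹]) = arc p := by
    apply Polynomial.ringHom_ext
    · intro r; simp [e, arc]
    · simp [e, arc]
  have e2 : e.comp ((inv ℂ).comp (toLaurent : ℂ[X] →+* ℂ[T;T⁻¹])) = arc s := by
    apply Polynomial.ringHom_ext
    · intro r; simp [e, arc, inv_apply]
    · simp [e, arc, inv_apply]
  have einj : Function.Injective e := by
    rw [injective_iff_map_eq_zero]
    intro F hF
    obtain ⟨n, p', hp'⟩ := LaurentPolynomial.exists_T_pow F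
    have h0 : arc p p' = 0 := by
      rw [← e1, RingHom.comp_apply, hp', map_mul, hF, zero_mul]
    have h1 : p' = 0 := arc_injective hp (by rw [h0, map_zero])
    rw [h1, map_zero] at hp'
    have h2 := congrArg (· * T (-(n : ℤ))) hp'
    simp only [zero_mul, mul_assoc, ← T_add] at h2
    simpa using h2.symm
  have hdom := isDominant_of_inj e einj
  have hglue : Spec.map (CommRingCat.ofHom (toLaurent : ℂ[X] →+* ℂ[T;T⁻¹])) ≫ φ₁ =
      Spec.map (CommRingCat.ofHom ((inv ℂ).comp (toLaurent : ℂ[X] →+* ℂ[T;T⁻¹]))) ≫ φ₂ := by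
    refine ext_of_isDominant_of_isSeparated sM ?_ (Spec.map (CommRingCat.ofHom e)) ?_
    · rw [Category.assoc, Category.assoc, h₁, h₂, ← Spec.map_comp, ← Spec.map_comp,
        ← CommRingCat.ofHom_comp, ← CommRingCat.ofHom_comp]
      congr 2
      ext r
      simp [inv_apply]
    · rw [← Category.assoc, ← Category.assoc, ← Spec.map_comp, ← Spec.map_comp,
        ← CommRingCat.ofHom_comp, ← CommRingCat.ofHom_comp, e1, e2, h]
  obtain ⟨φ, k1, k2⟩ := P1_desc φ₁ φ₂ hglue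
  refine ⟨φ, ?_, k1⟩
  apply P1_ext
  · rw [← Category.assoc, k1, h₁, i0_map]
  · rw [← Category.assoc, k2, h₂, i1_map]

end glue

section main

variable {M : Scheme.{0}} {sM : M ⟶ Spec (.of ℂ)} (τ : ModuliTransformation 4 sM)

lemma spec_id : Spec.map (CommRingCat.ofHom (RingHom.id ℂ)) = 𝟙 (Spec (CommRingCat.of ℂ)) :=
  Spec.map_id _

lemma const_C : (PowerSeries.constantCoeff (R := ℂ)).comp PowerSeries.C = RingHom.id ℂ := by
  ext c; simp

lemma const_arc (s : PowerSeries ℂ) :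
    (PowerSeries.constantCoeff (R := ℂ)).comp (arc s) =
      evalRingHom (PowerSeries.constantCoeff s) := by
  apply Polynomial.ringHom_ext
  · intro r; simp [arc_C]
  · simp [arc_X]

/-- there is an arc at every point of the line at infinity -/
lemma exists_arc_inv (hfam : S_family) (hch : S_cohom_h) (hgood : S_good) (harcs : S_arcs)
    (σ : ℂ → ℂ) (hσ : ∀ u, σ u ^ 2 + 1 = u) (G : ℂ → GD (PowerSeries ℂ))
    (hG : ∀ u, IsArc (G u) (uu (σ u)) 1) (c : ℂ) :
    ∃ (G' : GD (PowerSeries ℂ)) (p q s : PowerSeries ℂ), IsArc G' p q ∧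
      PowerSeries.constantCoeff s = c ∧ s * p = q ∧
      (c = 1 → G' = G 1 ∧ p = uu (σ 1) ∧ q = 1) := by
  by_cases hc : c = 0
  · obtain ⟨P, hP, hP'⟩ := harcs.2
    obtain ⟨s, hs⟩ : ∃ s : PowerSeries ℂ, s * (1 + PowerSeries.X ^ 6) = 1 := by
      refine ⟨(1 + PowerSeries.X ^ 6)⁻¹, PowerSeries.inv_mul_cancel _ ?_⟩
      simp
    refine ⟨P.gd, 1 + PowerSeries.X ^ 6, PowerSeries.X ^ 6, PowerSeries.X ^ 6 * s,
      arc_infinite hfam hch hgood P hP hP', ?_, ?_, ?_⟩
    · simp [hc]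
    · rw [mul_assoc, hs, mul_one]
    · intro h; rw [h] at hc; exact absurd hc one_ne_zero
  · have h0 : PowerSeries.constantCoeff (uu (σ c⁻¹)) = c⁻¹ := by rw [uu_const, hσ]
    refine ⟨G c⁻¹, uu (σ c⁻¹), 1, (uu (σ c⁻¹))⁻¹, hG _, ?_, ?_, ?_⟩
    · rw [PowerSeries.constantCoeff_inv, h0, inv_inv]
    · exact PowerSeries.inv_mul_cancel _ (by rw [h0]; exact inv_ne_zero hc)
    · rintro rfl
      rw [inv_one]
      exact ⟨rfl, rfl, rfl⟩

/-- the morphism from the projective line to the moduli space -/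
theorem exists_map (hfam : S_family) (hch : S_cohom_h) (hgood : S_good) (hiso : S_iso)
    (harcs : S_arcs) (harc : S_arc) [IsSeparated sM] [LocallyOfFiniteType sM]
    (σ : ℂ → ℂ) (hσ : ∀ u, σ u ^ 2 + 1 = u) (G : ℂ → GD (PowerSeries ℂ))
    (hG : ∀ u, IsArc (G u) (uu (σ u)) 1) :
    ∃ φ : P1 ⟶ M, φ ≫ sM = P1map ∧ ∀ u, Spec.map (CommRingCat.ofHom (evalRingHom u)) ≫ i0 ≫ φ =
      Spec.map (CommRingCat.ofHom (PowerSeries.constantCoeff (R := ℂ))) ≫ rho τ (hG u) := by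
  -- the coordinate `u`
  obtain ⟨φ₁, h₁, h₁'⟩ := harc M sM (fun u => uu (σ u)) (fun u => by rw [uu_const, hσ])
    (fun u => uu_ne _ _) (fun u => rho τ (hG u)) (fun u => rho_over τ (hG u)) (by
      intro Ω _ _ c c' a a' ha ha' hc he
      exact rho_eq τ hfam hch hgood hiso (hG c) (hG c') a a' ha ha' hc (by
        rw [map_one, map_one, mul_one, mul_one]; exact he))
  -- the coordinate `1 / u`
  choose G' p q s hA hs hspq h1 using exists_arc_inv hfam hch hgood harcs σ hσ G hG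
  have hne : ∀ c, s c ≠ PowerSeries.C c := by
    intro c h0
    have h2 := hspq c
    rw [h0] at h2
    by_cases hc : c = 0
    · rw [hc, map_zero, zero_mul] at h2
      apply (hA c).q0
      rw [hc]; exact h2.symm
    · apply (hA c).nc c⁻¹
      rw [← h2, ← mul_assoc, ← map_mul, inv_mul_cancel₀ hc, map_one, one_mul]
  obtain ⟨φ₂, h₂, h₂'⟩ := harc M sM s hs hne (fun c => rho τ (hA c)) (fun c => rho_over τ (hA c)) (by
      intro Ω _ _ c c' a a' ha ha' hc he
      refine rho_eq τ hfam hch hgood hiso (hA c) (hA c') a a' ha ha' hc ?_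
      rw [← hspq, ← hspq, map_mul, map_mul, ← he]
      ring)
  -- comparison
  obtain ⟨e1, e2, e3⟩ := h1 1 rfl
  have hρ : rho τ (hG 1) = rho τ (hA 1) := by
    have : ∀ (G₁ G₂ : GD (PowerSeries ℂ)) (p₁ p₂ q₁ q₂ : PowerSeries ℂ) (k₁ : IsArc G₁ p₁ q₁)
        (k₂ : IsArc G₂ p₂ q₂), G₁ = G₂ → rho τ k₁ = rho τ k₂ := by
      intro G₁ G₂ _ _ _ _ _ _ h; subst h; rfl
    exact this _ _ _ _ _ _ _ _ e1.symm
  have h3 : uu (σ 1) * s 1 = 1 := by
    have := hspq 1
    rw [e2, e3] at this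
    rw [mul_comm]; exact this
  obtain ⟨φ, k1, k2⟩ := exists_P1 φ₁ φ₂ h₁ h₂ (uu (σ 1)) (s 1) h3 (uu_ne _) (by
    rw [h₁' 1, h₂' 1, hρ])
  refine ⟨φ, k1, fun u => ?_⟩
  rw [k2, ← h₁' u, ← Category.assoc, ← Spec.map_comp, ← CommRingCat.ofHom_comp, const_arc,
    uu_const, hσ]

/-- the value of the class of an arc at the closed point -/
lemma rho_const {P : Par (PowerSeries ℂ)} {p q : PowerSeries ℂ} (h : IsArc P.gd p q)
    (hf : IsCurveFamily 4 (crvMap (P.map PowerSeries.constantCoeff).gd)) :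
    Spec.map (CommRingCat.ofHom (PowerSeries.constantCoeff (R := ℂ))) ≫ rho τ h =
      τ.cl (𝟙 _) _ hf := by
  have := cl_iso τ (G := P.gd) (G' := (P.map PowerSeries.constantCoeff).gd)
    (φ := PowerSeries.constantCoeff) (by rw [P.gd_map]; exact GIso.refl _) h.fam hf
    PowerSeries.C (RingHom.id ℂ) const_C
  rw [rho, ← this]
  simp only [spec_id]

/-- The data of the special fibre at `u = 0` are killed by every derivation. -/
lemma dd_zero (hcd : S_const) (D : Derivation ℤ ℂ ℂ) (P : Par ℂ) (hz : P.z = 1)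
    (hs : P.σ ^ 2 + 1 = 0) : Nonempty (DD D P.gd) := by
  have hU0 : hU P.σ P.z = 0 := by rw [hU, hz]; linear_combination hs
  have hl : P.lam = 0 := by
    have := P.hlam
    rw [hU0] at this
    exact pow_eq_zero_iff (by norm_num) |>.1 this
  have hk : P.k ^ 2 = 64 := by
    have := P.hk
    rw [hU0, hz] at this
    rw [this]; norm_num
  have hw : P.w = 1 / 8 := by
    have := P.hw
    rw [hU0, hz] at this
    linear_combination (1 / 8 : ℂ) * this
  have he : (8 - P.k) * P.e = 1 := by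
    have := P.he
    rw [hn, hU0, hz] at this
    linear_combination this
  have mul0 : ∀ a b : ℂ, D a = 0 → D b = 0 → D (a * b) = 0 := by
    intro a b ha hb
    rw [D.leibniz, ha, hb, smul_zero, smul_zero, add_zero]
  have nat0 : ∀ n : ℕ, D (n : ℂ) = 0 := fun n => D.map_natCast n
  have n2 : D (2 : ℂ) = 0 := by have := nat0 2; norm_num at this; exact this
  have n4 : D (4 : ℂ) = 0 := by have := nat0 4; norm_num at this; exact this
  have n8 : D (8 : ℂ) = 0 := by have := nat0 8; norm_num at this; exact this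
  have n64 : D (64 : ℂ) = 0 := by have := nat0 64; norm_num at this; exact this
  have n1 : D (1 : ℂ) = 0 := D.map_one_eq_zero
  have sq0 : ∀ a b : ℂ, a ≠ 0 → D b = 0 → a ^ 2 = b → D a = 0 := by
    intro a b ha hb h
    have h1 := congrArg D h
    rw [hb, pow_two, D.leibniz] at h1
    simp only [smul_eq_mul] at h1
    have h2 : (2 * a) * D a = 0 := by linear_combination h1
    exact (mul_eq_zero.1 h2).resolve_left (mul_ne_zero two_ne_zero ha)
  have hσ : D P.σ = 0 := by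
    refine sq0 P.σ (-1) ?_ (by rw [map_neg, n1, neg_zero]) (by linear_combination hs)
    intro h0
    rw [h0] at hs
    norm_num at hs
  have hDk : D P.k = 0 := by
    refine sq0 P.k 64 ?_ n64 hk
    intro h0
    rw [h0] at hk
    norm_num at hk
  have hDw : D (1 / 8 : ℂ) = 0 := by
    have h1 : D ((8 : ℂ) * (1 / 8)) = 0 := by
      rw [show (8 : ℂ) * (1 / 8) = 1 by norm_num, n1]
    rw [D.leibniz, n8, smul_zero, add_zero, smul_eq_mul] at h1
    exact (mul_eq_zero.1 h1).resolve_left (by norm_num)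
  have hn0 : hn P.σ P.z P.k = 8 - P.k := by rw [hn, hU0, hz]; ring
  rw [Par.gd]
  apply hcd
  · rw [hl]; simp
  · exact n1
  · rw [hn0, hz, hw]
    have : D (8 - P.k) = 0 := by rw [map_sub, n8, hDk, sub_zero]
    have h2 : D (-2 : ℂ) = 0 := by rw [map_neg, n2, neg_zero]
    rw [mul_one]
    refine mul0 _ _ (mul0 _ _ (mul0 _ _ h2 hσ) this) ?_
    rw [pow_two]
    exact mul0 _ _ hDw hDw
  · rw [hl]; simp
  · rw [hU0, hz, hw, show (8 * 1 ^ 12 - 16 * 0 * 1 ^ 6 - 0 ^ 2) * (1 / 8 : ℂ) = 1 by norm_num]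
    exact n1
  · rw [hl]; simp
  · rw [hl]; simp
  · rw [hU0, hz, hw, show 4 * P.σ * 1 ^ 3 * (0 + 2 * 1 ^ 6) * (1 / 8 : ℂ) = P.σ by ring]
    exact hσ
  · rw [hl]; simp
  · rw [hz, mul_one]
    exact mul0 _ _ (by rw [map_neg, n2, neg_zero]) hσ
  · rw [hl]; simp

/-- **Main theorem**, from its parts. -/
theorem main_of_parts (hfam : S_family) (hch : S_cohom_h) (hgood : S_good) (hiso : S_iso)
    (harcs : S_arcs) (hsp : S_special) (harc : S_arc) (ht : S_transport) (hcd : S_const)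
    (hda : S_deriv) (hD : S_exists_D) (hni : S_noniso) (𝓜 : CoarseModuliSpace 4) :
    ContainsP1 𝓜.sM := by
  have := 𝓜.separated
  have := 𝓜.finiteType
  choose σ G hσ hG hP using exists_arc hfam hch hgood harcs hsp
  obtain ⟨φ, hφ, hval⟩ := exists_map 𝓜.τ hfam hch hgood hiso harcs harc σ hσ G hG
  obtain ⟨D, hD0⟩ := hD
  obtain ⟨Q, hQz, hQs, hQU, hQ8, hQm, hQD⟩ := hni D hD0
  have h6 : IsUnit (6 : ℂ) := isUnit_iff_ne_zero.2 (by norm_num)
  set u₁ : ℂ := hU Q.σ Q.z with hu₁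
  have hQw := Q.hw
  have hu8 : u₁ ^ 2 + 8 ≠ 0 := by
    intro h0
    rw [hQz] at hQw hu₁
    rw [← hu₁, one_pow, mul_one, h0, zero_mul] at hQw
    exact zero_ne_one hQw
  obtain ⟨A₀, a1, a2, a3⟩ := hP 0 (by norm_num)
  obtain ⟨A₁, b1, b2, b3⟩ := hP u₁ hu8
  -- the two fibres
  let P₀ : Par ℂ := A₀.map PowerSeries.constantCoeff
  let P₁ : Par ℂ := A₁.map PowerSeries.constantCoeff
  have hP₀σ : P₀.σ = σ 0 := by
    change PowerSeries.constantCoeff A₀.σ = _
    rw [a1]; simp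
  have hP₀z : P₀.z = 1 := by
    change PowerSeries.constantCoeff A₀.z = _
    rw [a2]; simp
  have hP₁σ : P₁.σ = σ u₁ := by
    change PowerSeries.constantCoeff A₁.σ = _
    rw [b1]; simp
  have hP₁z : P₁.z = 1 := by
    change PowerSeries.constantCoeff A₁.z = _
    rw [b2]; simp
  have f₀ : IsCurveFamily 4 (crvMap P₀.gd) := par_family hfam hch hgood P₀ h6
  have f₁ : IsCurveFamily 4 (crvMap P₁.gd) := par_family hfam hch hgood P₁ h6
  have c₀ : Spec.map (CommRingCat.ofHom (evalRingHom (0 : ℂ))) ≫ i0 ≫ φ =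
      𝓜.τ.cl (𝟙 _) _ f₀ := by
    rw [hval 0]
    have h := hG 0
    have : ∀ (G' : GD (PowerSeries ℂ)) (h' : IsArc G' (uu (σ 0)) 1) (e : A₀.gd = G'),
        Spec.map (CommRingCat.ofHom (PowerSeries.constantCoeff (R := ℂ))) ≫ rho 𝓜.τ h' =
          𝓜.τ.cl (𝟙 _) _ f₀ := by
      intro G' h' e
      subst e
      exact rho_const 𝓜.τ h' f₀
    exact this _ _ a3
  have c₁ : Spec.map (CommRingCat.ofHom (evalRingHom u₁)) ≫ i0 ≫ φ =
      𝓜.τ.cl (𝟙 _) _ f₁ := by
    rw [hval u₁]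
    have h := hG u₁
    have : ∀ (G' : GD (PowerSeries ℂ)) (h' : IsArc G' (uu (σ u₁)) 1) (e : A₁.gd = G'),
        Spec.map (CommRingCat.ofHom (PowerSeries.constantCoeff (R := ℂ))) ≫ rho 𝓜.τ h' =
          𝓜.τ.cl (𝟙 _) _ f₁ := by
      intro G' h' e
      subst e
      exact rho_const 𝓜.τ h' f₁
    exact this _ _ b3
  have ev : ∀ u : ℂ, Spec.map (CommRingCat.ofHom (evalRingHom u)) ≫
      Spec.map (CommRingCat.ofHom (C : ℂ →+* ℂ[X])) = 𝟙 _ := by
    intro u
    rw [← Spec.map_comp, ← CommRingCat.ofHom_comp, ← spec_id]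
    congr 2
    ext r
    simp
  refine ⟨φ, hφ, Spec.map (CommRingCat.ofHom (evalRingHom u₁)) ≫ i0,
    Spec.map (CommRingCat.ofHom (evalRingHom 0)) ≫ i0, ?_, ?_, ?_⟩
  · rw [Category.assoc, i0_map, ev]
  · rw [Category.assoc, i0_map, ev]
  · rw [Category.assoc, Category.assoc, c₀, c₁]
    intro heq
    obtain ⟨e, he⟩ := 𝓜.injective _ f₁ _ f₀ heq
    -- the fibre at `u₁` is isomorphic to the curve of `Q`
    have i1 : GIso Q.gd P₁.gd := by
      refine hiso ℂ Q P₁ (by rw [hQz]; exact one_ne_zero) (by rw [hP₁z]; exact one_ne_zero)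
        hQs hQU hQ8 ?_
      rw [hP₁z, hP₁σ, hQz, hU, hU]
      have h1 := hσ u₁
      have h2 : u₁ = Q.σ ^ 2 + 1 ^ 6 := by rw [hu₁, hQz, hU]
      linear_combination -h2 - h1
    obtain ⟨m, hm⟩ := bc_of_iso (φ := RingHom.id ℂ) (G := P₁.gd) (G' := Q.gd) (by
      rw [P₁.gd_map]
      exact i1.symm)
    have hm' : IsIso m := by
      have := hm.flip
      have hid : IsIso (Spec.map (CommRingCat.ofHom (RingHom.id ℂ))) := by
        rw [spec_id]; infer_instance
      exact hm.isIso_fst_of_isIso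
    have hcomm : m ≫ crvMap P₁.gd = crvMap Q.gd := by
      have := hm.w
      rw [spec_id, Category.comp_id] at this
      exact this
    have hDD : Nonempty (DD D P₀.gd) := dd_zero hcd D P₀ hP₀z (by rw [hP₀σ]; exact hσ 0)
    have hDD' : Nonempty (DD D Q.gd) := by
      refine ht ℂ D Q.gd P₀.gd (asIso m ≪≫ e) ?_ hDD
      simp only [Iso.trans_hom, asIso_hom, Category.assoc, he, hcomm]
    exact hQD (hda ℂ D _ _ _ _ _ _ _ _ _ _ hQm Q.f1 hDD')

end main

end Pool.Agent.H927.MG
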