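import Pool.Agent.H927.MG.SType
import Pool.Graph.R_pool_sql_team_seeded_f72693b1.W523.Defs

/-!
# Statements of the parts of the proof that some `M_g` contains a `ℙ¹` (MP_2eb777_ag, Q1, g = 4)
-/

set_option autoImplicit false

open AlgebraicGeometry CategoryTheory Limits Polynomial

open scoped LaurentPolynomial

open LaurentPolynomial (T invert T_add T_zero involutive_invert invert_T invert_C)

namespace Pool.Agent.H927.MG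

open Pool.Agent.W523

/-! ### Curves -/

/-- the condition for the chart to be smooth over the base -/
def Good {R : Type} [CommRing R] (d : Dat R[X]) : Prop :=
  IsCoprime d.f (derivative d.f) ∧ IsCoprime d.l (derivative d.l) ∧
    IsCoprime d.m (derivative d.m)

/-- SR -/
def S_smooth_ring : Prop := ∀ (R : Type) [CommRing R] [Nontrivial R] (d : Dat R[X]),
  IsUnit (2 : R) → Good d → ∀ p : PrimeSpectrum (BB d), ∃ g : BB d, g ∉ p.asIdeal ∧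
    ((algebraMap (BB d) (Localization.Away g)).comp
      (sc d)).IsStandardSmoothOfRelativeDimension 1

/-- SM -/
def S_smooth : Prop := ∀ (R : Type) [CommRing R] [Nontrivial R] (G : GD R), IsUnit (2 : R) →
  Good G.d1 → Good G.d2 → SmoothOfRelativeDimension 1 (crvMap G)

/-- CN -/
def S_conn : Prop := ∀ (K : Type) [Field K] (G : GD K), Cohom G → ConnectedSpace (Crv G)

/-- GE -/
def S_genus : Prop := ∀ (K : Type) [Field K] (G : GD K), Cohom G → HasGenus (crvMap G) 4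

/-- BC -/
def S_bc : Prop := ∀ (R S : Type) [CommRing R] [CommRing S] (G : GD R) (G' : GD S) (φ : R →+* S),
  GIso (G.map φ) G' → ∃ m : Crv G' ⟶ Crv G,
    IsPullback m (crvMap G') (crvMap G) (Spec.map (CommRingCat.ofHom φ))

/-- CI -/
def S_cohom_iso : Prop := ∀ (K : Type) [Field K] (G G' : GD K), GIso G G' → Cohom G → Cohom G'

/-- CH -/
def S_cohom_h : Prop := ∀ (K : Type) [Field K] (l0 l1 m0 m1 V0 V1 V2 V3 T0 T1 T2 : K),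
  Cohom (hgd l0 l1 m0 m1 V0 V1 V2 V3 T0 T1 T2)

/-- CM -/
def S_cohom_m : Prop := ∀ (K : Type) [Field K] (G : GD K) (α β : K), α ≠ 0 → β ≠ 0 →
  (2 : K) ≠ 0 → G.g.c = T (-3) → G.g.x = G.g.t → G.g.y = G.g.z →
  G.g.x + G.g.y = LaurentPolynomial.C α * T (-1) →
  G.g.x - G.g.y = LaurentPolynomial.C β * T (-3) → Cohom G

/-- FA -/
def S_family : Prop := ∀ (R : Type) [CommRing R] [IsNoetherianRing R] [Nontrivial R] (G : GD R),
  IsUnit (2 : R) → Good G.d1 → Good G.d2 →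
  (∀ (K : Type) [Field K] (φ : R →+* K), Cohom (G.map φ)) → IsCurveFamily 4 (crvMap G)

/-- GO -/
def S_good : Prop := ∀ (R : Type) [CommRing R] [Nontrivial R] (P : Par R), IsUnit (6 : R) →
  Good P.gd.d1 ∧ Good P.gd.d2

/-- IC: the isomorphism class depends only on `u = U / z⁶`. -/
def S_iso : Prop := ∀ (Ω : Type) [Field Ω] [IsAlgClosed Ω] [CharZero Ω] (P P' : Par Ω),
  P.z ≠ 0 → P'.z ≠ 0 → P.σ ≠ 0 → hU P.σ P.z ≠ 0 → hU P.σ P.z + 8 * P.z ^ 6 ≠ 0 →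
  hU P.σ P.z * P'.z ^ 6 = hU P'.σ P'.z * P.z ^ 6 → GIso P.gd P'.gd

/-- RA: parameters over the power series ring, ordinary arcs -/
def S_arcs : Prop := (∀ σ₀ : ℂ, (σ₀ ^ 2 + 1) ^ 2 + 8 ≠ 0 → ∃ P : Par (PowerSeries ℂ),
    P.σ = PowerSeries.C σ₀ + PowerSeries.X ^ 6 ∧ P.z = 1) ∧
  ∃ P : Par (PowerSeries ℂ), P.σ = 1 ∧ P.z = PowerSeries.X

/-- SP: special arcs -/
def S_special : Prop := ∀ σ₀ : ℂ, σ₀ ^ 2 - 2 * σ₀ + 3 = 0 → ∃ G : GD (PowerSeries ℂ),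
  IsCurveFamily 4 (crvMap G) ∧
  ∀ (Ω : Type) [Field Ω] [IsAlgClosed Ω] (a : PowerSeries ℂ →+* Ω), Function.Injective a →
    ∃ P : Par Ω, P.σ = a (PowerSeries.C σ₀ + PowerSeries.X ^ 6) ∧ P.z = 1 ∧ GIso (G.map a) P.gd

/-! ### Morphisms to the moduli space -/

/-- A1 -/
def S_arc1 : Prop := ∀ (M : Scheme.{0}) (F K : Type) [Field F] [Field K] [CharZero F]
  [Algebra F K] (ρ : Spec (.of K) ⟶ M),
  (∀ (Ω : Type) [Field Ω] [IsAlgClosed Ω] (a a' : K →+* Ω),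
    a.comp (algebraMap F K) = a'.comp (algebraMap F K) →
    Spec.map (CommRingCat.ofHom a) ≫ ρ = Spec.map (CommRingCat.ofHom a') ≫ ρ) →
  ∃ ψ : Spec (.of F) ⟶ M, Spec.map (CommRingCat.ofHom (algebraMap F K)) ≫ ψ = ρ

/-- the arc `X ↦ s` -/
noncomputable def arc (s : PowerSeries ℂ) : ℂ[X] →+* PowerSeries ℂ :=
  eval₂RingHom PowerSeries.C s

/-- A2 -/
def S_arc2 : Prop := ∀ (M : Scheme.{0}) (sM : M ⟶ Spec (.of ℂ)) [IsSeparated sM]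
  [LocallyOfFiniteType sM] (ψ : Spec (.of (RatFunc ℂ)) ⟶ M)
  (_ : ψ ≫ sM = Spec.map (CommRingCat.ofHom (algebraMap ℂ (RatFunc ℂ))))
  (s : ℂ → PowerSeries ℂ) (_ : ∀ c, PowerSeries.constantCoeff (s c) = c)
  (_ : ∀ c, s c ≠ PowerSeries.C c) (ρ : ℂ → (Spec (.of (PowerSeries ℂ)) ⟶ M))
  (_ : ∀ c, ρ c ≫ sM = Spec.map (CommRingCat.ofHom (PowerSeries.C : ℂ →+* PowerSeries ℂ)))
  (_ : ∀ c, ∃ (Ω : Type) (_ : Field Ω) (a : PowerSeries ℂ →+* Ω) (b : RatFunc ℂ →+* Ω),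
    Function.Injective a ∧ a.comp (arc (s c)) = b.comp (algebraMap ℂ[X] (RatFunc ℂ)) ∧
    Spec.map (CommRingCat.ofHom a) ≫ ρ c = Spec.map (CommRingCat.ofHom b) ≫ ψ),
  ∃ φ : Spec (.of ℂ[X]) ⟶ M, φ ≫ sM = Spec.map (CommRingCat.ofHom C) ∧
    ∀ c, Spec.map (CommRingCat.ofHom (arc (s c))) ≫ φ = ρ c

/-- AR -/
def S_arc : Prop := ∀ (M : Scheme.{0}) (sM : M ⟶ Spec (.of ℂ)) [IsSeparated sM]
  [LocallyOfFiniteType sM] (s : ℂ → PowerSeries ℂ)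
  (_ : ∀ c, PowerSeries.constantCoeff (s c) = c) (_ : ∀ c, s c ≠ PowerSeries.C c)
  (ρ : ℂ → (Spec (.of (PowerSeries ℂ)) ⟶ M))
  (_ : ∀ c, ρ c ≫ sM = Spec.map (CommRingCat.ofHom (PowerSeries.C : ℂ →+* PowerSeries ℂ)))
  (_ : ∀ (Ω : Type) [Field Ω] [IsAlgClosed Ω] (c c' : ℂ) (a a' : PowerSeries ℂ →+* Ω),
    Function.Injective a → Function.Injective a' →
    a.comp PowerSeries.C = a'.comp PowerSeries.C → a (s c) = a' (s c') →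
    Spec.map (CommRingCat.ofHom a) ≫ ρ c = Spec.map (CommRingCat.ofHom a') ≫ ρ c'),
  ∃ φ : Spec (.of ℂ[X]) ⟶ M, φ ≫ sM = Spec.map (CommRingCat.ofHom C) ∧
    ∀ c, Spec.map (CommRingCat.ofHom (arc (s c))) ≫ φ = ρ c

/-! ### The map is not constant -/

/-- Compatible derivations of the coordinate rings of the charts extending a derivation of the
ground field. -/
structure DD {K : Type} [Field K] (D : Derivation ℤ K K) (G : GD K) where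
  D1 : Derivation ℤ (BB G.d1) (BB G.d1)
  D2 : Derivation ℤ (BB G.d2) (BB G.d2)
  DL : Derivation ℤ (BB G.d1.L) (BB G.d1.L)
  h1 : ∀ r, D1 (sc _ r) = sc _ (D r)
  h2 : ∀ r, D2 (sc _ r) = sc _ (D r)
  c1 : ∀ w, DL (inc _ w) = inc _ (D1 w)
  c2 : ∀ w, DL (inc2 G w) = inc2 G (D2 w)

/-- DT -/
def S_transport : Prop := ∀ (K : Type) [Field K] (D : Derivation ℤ K K) (G G' : GD K)
  (e : Crv G ≅ Crv G'), e.hom ≫ crvMap G' = crvMap G → Nonempty (DD D G') → Nonempty (DD D G)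

/-- DC -/
def S_const : Prop := ∀ (K : Type) [Field K] (D : Derivation ℤ K K)
  (l0 l1 m0 m1 V0 V1 V2 V3 T0 T1 T2 : K), D l0 = 0 → D l1 = 0 → D m0 = 0 → D m1 = 0 →
  D V0 = 0 → D V1 = 0 → D V2 = 0 → D V3 = 0 → D T0 = 0 → D T1 = 0 → D T2 = 0 →
  Nonempty (DD D (hgd l0 l1 m0 m1 V0 V1 V2 V3 T0 T1 T2))

/-- DA -/
def S_deriv : Prop := ∀ (K : Type) [Field K] [CharZero K] (D : Derivation ℤ K K)
  (l0 m0 m1 V0 V1 V2 V3 T0 T1 T2 : K), m1 ≠ 0 →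
  (hgd l0 1 m0 m1 V0 V1 V2 V3 T0 T1 T2).d1.f = 1 - X ^ 6 →
  Nonempty (DD D (hgd l0 1 m0 m1 V0 V1 V2 V3 T0 T1 T2)) → D l0 = 0 ∧ D (m0 / m1) = 0

/-- DE -/
def S_exists_D : Prop := ∃ D : Derivation ℤ ℂ ℂ, D ≠ 0

/-- NI -/
def S_noniso : Prop := ∀ D : Derivation ℤ ℂ ℂ, D ≠ 0 → ∃ P : Par ℂ, P.z = 1 ∧ P.σ ≠ 0 ∧
  hU P.σ P.z ≠ 0 ∧ hU P.σ P.z + 8 * P.z ^ 6 ≠ 0 ∧
  (P.lam ^ 2 * (hU P.σ P.z + 8 * P.z ^ 6) ^ 2 * P.w ^ 2) ≠ 0 ∧
  ¬ (D (-4 * P.σ * P.lam * P.z * (hU P.σ P.z + 8 * P.z ^ 6) * P.e) = 0 ∧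
    D ((-2 * P.σ * P.z * hn P.σ P.z P.k * P.w ^ 2) /
      (P.lam ^ 2 * (hU P.σ P.z + 8 * P.z ^ 6) ^ 2 * P.w ^ 2)) = 0)

end Pool.Agent.H927.MG
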