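import Pool.Agent.H927.MG.Base

/-!
# The data of the general members of the family
-/

set_option autoImplicit false

open AlgebraicGeometry CategoryTheory Limits Polynomial

open scoped LaurentPolynomial

open LaurentPolynomial (T invert T_add T_zero involutive_invert invert_T invert_C)

namespace Pool.Agent.H927.MG

open Pool.Agent.W523

variable {R S : Type} [CommRing R] [CommRing S]

/-- The data of a curve glued by `v ↦ T⁻³ v`, `W₀ ↦ T⁻² W₀`, `W₁ ↦ T⁻² W₁`. -/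
noncomputable def diagGD (d1 d2 : Dat R[X])
    (hl : inv R (toLaurent d2.l) = T (-1) * toLaurent d1.l)
    (hm : inv R (toLaurent d2.m) = T (-1) * toLaurent d1.m)
    (hV : inv R (toLaurent d2.V) = T (-3) * toLaurent d1.V)
    (hT : inv R (toLaurent d2.T) = T (-2) * toLaurent d1.T) : GD R where
  d1 := d1
  d2 := d2
  g := Mor.diag (T (-3)) (T (-2)) (T (-2))
    (by
      simp only [Dat.map_l, hl]
      rw [← mul_assoc, ← T_add, LaurentPolynomial.T_pow]; norm_num)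
    (by
      simp only [Dat.map_m, hm]
      rw [← mul_assoc, ← T_add, LaurentPolynomial.T_pow]; norm_num)
    (by simp only [Dat.map_V, hV])
    (by
      simp only [Dat.map_l, Dat.map_T, hl, hT]
      have h : (T (-3) : R[T;T⁻¹]) = T (-1) * T (-2) := by rw [← T_add]; norm_num
      rw [h]; ring)
    (by
      simp only [Dat.map_m, Dat.map_T, hm, hT]
      have h : (T (-3) : R[T;T⁻¹]) = T (-1) * T (-2) := by rw [← T_add]; norm_num
      rw [h]; ring)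
    (by
      simp only [Dat.map_l, Dat.map_m, Dat.map_T, hl, hm, hT]
      have h : (T (-2) : R[T;T⁻¹]) = T (-1) * T (-1) := by rw [← T_add]; norm_num
      rw [h]; ring)
    (by
      simp only [Dat.map_l, Dat.map_m, Dat.map_T, hl, hm, hT]
      have h : (T (-3) : R[T;T⁻¹]) = T (-1) * T (-2) := by rw [← T_add]; norm_num
      rw [h]; ring)
  hc := LaurentPolynomial.isUnit_T _
  hdet := by
    change IsUnit ((T (-2) : R[T;T⁻¹]) * T (-2) - 0 * 0)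
    rw [mul_zero, sub_zero, ← T_add]
    exact LaurentPolynomial.isUnit_T _

/-- The data given by two linear forms `l`, `m`, a cubic form `V` and a quadratic form `T`. -/
noncomputable def hgd (l0 l1 m0 m1 V0 V1 V2 V3 T0 T1 T2 : R) : GD R :=
  diagGD ⟨C l0 + C l1 * X, C m0 + C m1 * X, C V0 + C V1 * X + C V2 * X ^ 2 + C V3 * X ^ 3,
      C T0 + C T1 * X + C T2 * X ^ 2⟩
    ⟨C l1 + C l0 * X, C m1 + C m0 * X, C V3 + C V2 * X + C V1 * X ^ 2 + C V0 * X ^ 3,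
      C T2 + C T1 * X + C T0 * X ^ 2⟩
    (by
      simp only [map_add, map_mul, toLaurent_C, toLaurent_X, inv_apply, invert_C, invert_T]
      have h : (T (-1) : R[T;T⁻¹]) * T 1 = 1 := by rw [← T_add]; norm_num
      linear_combination (-(LaurentPolynomial.C l1)) * h)
    (by
      simp only [map_add, map_mul, toLaurent_C, toLaurent_X, inv_apply, invert_C, invert_T]
      have h : (T (-1) : R[T;T⁻¹]) * T 1 = 1 := by rw [← T_add]; norm_num
      linear_combination (-(LaurentPolynomial.C m1)) * h)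
    (by
      simp only [map_add, map_mul, map_pow, toLaurent_C, toLaurent_X, inv_apply, invert_C,
        invert_T]
      have h : (T (-1) : R[T;T⁻¹]) * T 1 = 1 := by rw [← T_add]; norm_num
      have h3 : (T (-3) : R[T;T⁻¹]) = T (-1) ^ 3 := by rw [LaurentPolynomial.T_pow]; norm_num
      rw [h3]
      generalize (T (-1) : R[T;T⁻¹]) = a at *
      generalize (T 1 : R[T;T⁻¹]) = b at *
      have h2 : a ^ 2 * b ^ 2 = 1 := by rw [← mul_pow, h, one_pow]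
      have h3 : a ^ 3 * b ^ 3 = 1 := by rw [← mul_pow, h, one_pow]
      linear_combination (-(LaurentPolynomial.C V1 * a ^ 2)) * h -
        (LaurentPolynomial.C V2 * a) * h2 - LaurentPolynomial.C V3 * h3)
    (by
      simp only [map_add, map_mul, map_pow, toLaurent_C, toLaurent_X, inv_apply, invert_C,
        invert_T]
      have h : (T (-1) : R[T;T⁻¹]) * T 1 = 1 := by rw [← T_add]; norm_num
      have h3 : (T (-2) : R[T;T⁻¹]) = T (-1) ^ 2 := by rw [LaurentPolynomial.T_pow]; norm_num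
      rw [h3]
      generalize (T (-1) : R[T;T⁻¹]) = a at *
      generalize (T 1 : R[T;T⁻¹]) = b at *
      have h2 : a ^ 2 * b ^ 2 = 1 := by rw [← mul_pow, h, one_pow]
      linear_combination (-(LaurentPolynomial.C T1 * a)) * h - LaurentPolynomial.C T2 * h2)

lemma hgd_map (φ : R →+* S) (l0 l1 m0 m1 V0 V1 V2 V3 T0 T1 T2 : R) :
    (hgd l0 l1 m0 m1 V0 V1 V2 V3 T0 T1 T2).map φ =
      hgd (φ l0) (φ l1) (φ m0) (φ m1) (φ V0) (φ V1) (φ V2) (φ V3) (φ T0) (φ T1) (φ T2) := by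
  apply GD.ext'
  · ext1 <;> simp [hgd, diagGD]
  · ext1 <;> simp [hgd, diagGD]
  all_goals simp [hgd, diagGD, Mor.diag, Lmap_T]

/-- `u = σ² + z⁶` -/
def hU (σ z : R) : R := σ ^ 2 + z ^ 6

/-- `n = 8 z¹² + 20 U z⁶ - U² - k` -/
def hn (σ z k : R) : R := 8 * z ^ 12 + 20 * hU σ z * z ^ 6 - hU σ z ^ 2 - k

/-- The parameters of a member of the family: `λ³ = U = σ² + z⁶`,
`k² = -(U² + 8 z¹²) (U² + 88 U z⁶ - 8 z¹²)`, and `U² + 8 z¹²` and `n` are units with inverses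
`w` and `e`. -/
structure Par (R : Type) [CommRing R] where
  σ : R
  z : R
  lam : R
  k : R
  w : R
  e : R
  hlam : lam ^ 3 = hU σ z
  hk : k ^ 2 = -(hU σ z ^ 2 + 8 * z ^ 12) * (hU σ z ^ 2 + 88 * hU σ z * z ^ 6 - 8 * z ^ 12)
  hw : (hU σ z ^ 2 + 8 * z ^ 12) * w = 1
  he : hn σ z k * e = 1

/-- base change of parameters -/
def Par.map (P : Par R) (φ : R →+* S) : Par S where
  σ := φ P.σ
  z := φ P.z
  lam := φ P.lam
  k := φ P.k
  w := φ P.w
  e := φ P.e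
  hlam := by rw [← map_pow, P.hlam]; simp [hU]
  hk := by
    rw [← map_pow, P.hk]
    have h8 : φ 8 = 8 := map_ofNat φ 8
    have h88 : φ 88 = 88 := map_ofNat φ 88
    simp [hU, h8, h88]
  hw := by
    have := congrArg φ P.hw
    have h8 : φ 8 = 8 := map_ofNat φ 8
    simpa [hU, h8] using this
  he := by
    have := congrArg φ P.he
    have h8 : φ 8 = 8 := map_ofNat φ 8
    have h20 : φ 20 = 20 := map_ofNat φ 20
    simpa [hU, hn, h8, h20] using this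

/-- the curve attached to the parameters -/
noncomputable def Par.gd (P : Par R) : GD R :=
  hgd (-4 * P.σ * P.lam * P.z * (hU P.σ P.z + 8 * P.z ^ 6) * P.e) 1
    (-2 * P.σ * P.z * hn P.σ P.z P.k * P.w ^ 2)
    (P.lam ^ 2 * (hU P.σ P.z + 8 * P.z ^ 6) ^ 2 * P.w ^ 2)
    ((8 * P.z ^ 12 - 16 * hU P.σ P.z * P.z ^ 6 - hU P.σ P.z ^ 2) * P.w)
    (24 * P.σ * P.lam ^ 2 * P.z ^ 5 * P.w)
    (-18 * P.lam ^ 4 * P.z ^ 4 * P.w)
    (4 * P.σ * P.z ^ 3 * (hU P.σ P.z + 2 * P.z ^ 6) * P.w)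
    (2 * P.lam * P.z ^ 2) (-2 * P.σ * P.z) (P.lam ^ 2)

lemma Par.gd_map (P : Par R) (φ : R →+* S) : P.gd.map φ = (P.map φ).gd := by
  rw [Par.gd, hgd_map]
  have h8 : φ 8 = 8 := map_ofNat φ 8
  have h20 : φ 20 = 20 := map_ofNat φ 20
  have h4 : φ 4 = 4 := map_ofNat φ 4
  have h2 : φ 2 = 2 := map_ofNat φ 2
  have h16 : φ 16 = 16 := map_ofNat φ 16
  have h24 : φ 24 = 24 := map_ofNat φ 24
  have h18 : φ 18 = 18 := map_ofNat φ 18
  have e1 : φ (hU P.σ P.z) = hU (φ P.σ) (φ P.z) := by simp [hU]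
  have e2 : φ (hn P.σ P.z P.k) = hn (φ P.σ) (φ P.z) (φ P.k) := by
    simp [hn, e1, h8, h20]
  rw [Par.gd]
  simp only [map_add, map_mul, map_sub, map_neg, map_pow, map_one, e1, e2, h8, h4, h2, h16, h24,
    h18]
  rfl

lemma id1 {A : Type} [CommRing A] (X l s z U : A) (hU : U = s ^ 2 + z ^ 6) (h : l ^ 3 = U) :
    ((8 * z ^ 12 - 16 * U * z ^ 6 - U ^ 2) + 24 * s * l ^ 2 * z ^ 5 * X -
        18 * l ^ 4 * z ^ 4 * X ^ 2 + 4 * s * z ^ 3 * (U + 2 * z ^ 6) * X ^ 3) ^ 2 -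
      (l ^ 2 * (U + 8 * z ^ 6) ^ 2 * X ^ 2 -
        4 * s * z * (8 * z ^ 12 + 20 * U * z ^ 6 - U ^ 2) * X +
        8 * s ^ 2 * l * z ^ 2 * (U + 8 * z ^ 6)) *
        (l ^ 2 * X ^ 2 - 2 * s * z * X + 2 * l * z ^ 2) ^ 2 =
      (U ^ 2 + 8 * z ^ 12) ^ 2 * (1 - X ^ 6) := by
  subst hU
  linear_combination (-X^6 * l^3 * s^4 - 18 * X^6 * l^3 * s^2 * z^6 - 81 * X^6 * l^3 * z^12 -
    X^6 * s^6 - 19 * X^6 * s^4 * z^6 - 99 * X^6 * s^2 * z^12 - 81 * X^6 * z^18 +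
    324 * X^4 * l^5 * z^8 - 12 * X^4 * l^2 * s^4 * z^2 + 180 * X^4 * l^2 * s^2 * z^8 -
    864 * X^3 * l^3 * s * z^9 + 24 * X^3 * s^5 * z^3 - 144 * X^3 * s^3 * z^9 +
    216 * X^3 * s * z^15 + 864 * X^2 * l * s^2 * z^10 - 32 * s^4 * z^6 -
    288 * s^2 * z^12) * h

/-- `n n* = 2 U (U + 8 z⁶)³` -/
lemma Par.nn (P : Par R) : hn P.σ P.z P.k * hn P.σ P.z (-P.k) =
    2 * hU P.σ P.z * (hU P.σ P.z + 8 * P.z ^ 6) ^ 3 := by
  have h := P.hk
  simp only [hn]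
  linear_combination -h

lemma Par.ns (P : Par R) : 2 * hU P.σ P.z * (hU P.σ P.z + 8 * P.z ^ 6) ^ 3 * P.e =
    hn P.σ P.z (-P.k) := by
  have h := P.nn
  have h' := P.he
  linear_combination (-P.e) * h + hn P.σ P.z (-P.k) * h'

lemma id2 {A : Type} [CommRing A] (X l s z U k w e n n' : A)
    (hl : l ^ 3 = U) (hn : n = 8 * z ^ 12 + 20 * U * z ^ 6 - U ^ 2 - k)
    (hn' : n' = 8 * z ^ 12 + 20 * U * z ^ 6 - U ^ 2 + k) (he : n * e = 1)
    (hs : 2 * U * (U + 8 * z ^ 6) ^ 3 * e = n') :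
    (-4 * s * l * z * (U + 8 * z ^ 6) * e + X) *
      (-2 * s * z * n * w ^ 2 + l ^ 2 * (U + 8 * z ^ 6) ^ 2 * w ^ 2 * X) =
      w ^ 2 * (l ^ 2 * (U + 8 * z ^ 6) ^ 2 * X ^ 2 -
        4 * s * z * (8 * z ^ 12 + 20 * U * z ^ 6 - U ^ 2) * X +
        8 * s ^ 2 * l * z ^ 2 * (U + 8 * z ^ 6)) := by
  linear_combination (8 * w ^ 2 * s ^ 2 * l * z ^ 2 * (U + 8 * z ^ 6)) * he -
    (2 * w ^ 2 * X * s * z) * hs - (4 * s * z * (U + 8 * z ^ 6) ^ 3 * e * X * w ^ 2) * hl -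
    (2 * w ^ 2 * X * s * z) * hn' - (2 * w ^ 2 * X * s * z) * hn

lemma id3 {A : Type} [CommRing A] (X l s z U k w e n n' : A) (hU : U = s ^ 2 + z ^ 6)
    (hl : l ^ 3 = U) (hn : n = 8 * z ^ 12 + 20 * U * z ^ 6 - U ^ 2 - k)
    (hn' : n' = 8 * z ^ 12 + 20 * U * z ^ 6 - U ^ 2 + k) (he : n * e = 1)
    (hs : 2 * U * (U + 8 * z ^ 6) ^ 3 * e = n') (hw : (U ^ 2 + 8 * z ^ 12) * w = 1) :
    ((8 * z ^ 12 - 16 * U * z ^ 6 - U ^ 2) * w + 24 * s * l ^ 2 * z ^ 5 * w * X +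
        -18 * l ^ 4 * z ^ 4 * w * X ^ 2 + 4 * s * z ^ 3 * (U + 2 * z ^ 6) * w * X ^ 3) ^ 2 -
      (-4 * s * l * z * (U + 8 * z ^ 6) * e + 1 * X) *
      (-2 * s * z * n * w ^ 2 + l ^ 2 * (U + 8 * z ^ 6) ^ 2 * w ^ 2 * X) *
      (2 * l * z ^ 2 + -2 * s * z * X + l ^ 2 * X ^ 2) ^ 2 = 1 - X ^ 6 := by
  have h1 := id1 X l s z U hU hl
  have h2 := id2 X l s z U k w e n n' hl hn hn' he hs
  rw [one_mul]
  linear_combination w ^ 2 * h1 - (2 * l * z ^ 2 + -2 * s * z * X + l ^ 2 * X ^ 2) ^ 2 * h2 +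
    (1 - X ^ 6) * (w * (U ^ 2 + 8 * z ^ 12) + 1) * hw

/-- `f = 1 - X⁶` on the first chart -/
lemma Par.f1 (P : Par R) : P.gd.d1.f = 1 - X ^ 6 := by
  have hU : C (hU P.σ P.z) = (C P.σ) ^ 2 + (C P.z) ^ 6 := by simp [hU]
  have hl : (C P.lam) ^ 3 = C (MG.hU P.σ P.z) := by rw [← map_pow, P.hlam]
  have c8 : (C 8 : R[X]) = 8 := map_ofNat C 8
  have c20 : (C 20 : R[X]) = 20 := map_ofNat C 20
  have c2 : (C 2 : R[X]) = 2 := map_ofNat C 2
  have c4 : (C 4 : R[X]) = 4 := map_ofNat C 4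
  have c16 : (C 16 : R[X]) = 16 := map_ofNat C 16
  have c18 : (C 18 : R[X]) = 18 := map_ofNat C 18
  have c24 : (C 24 : R[X]) = 24 := map_ofNat C 24
  have hn : C (hn P.σ P.z P.k) = 8 * (C P.z) ^ 12 + 20 * C (MG.hU P.σ P.z) * (C P.z) ^ 6 -
      C (MG.hU P.σ P.z) ^ 2 - C P.k := by simp [hn, c8, c20]
  have hn' : C (MG.hn P.σ P.z (-P.k)) = 8 * (C P.z) ^ 12 + 20 * C (MG.hU P.σ P.z) * (C P.z) ^ 6 -
      C (MG.hU P.σ P.z) ^ 2 + C P.k := by simp [MG.hn, c8, c20]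
  have he : C (MG.hn P.σ P.z P.k) * C P.e = 1 := by rw [← map_mul, P.he, map_one]
  have hw : (C (MG.hU P.σ P.z) ^ 2 + 8 * (C P.z) ^ 12) * C P.w = 1 := by
    have := congrArg (C : R →+* R[X]) P.hw
    simpa [c8] using this
  have hs : 2 * C (MG.hU P.σ P.z) * (C (MG.hU P.σ P.z) + 8 * (C P.z) ^ 6) ^ 3 * C P.e =
      C (MG.hn P.σ P.z (-P.k)) := by
    have := congrArg (C : R →+* R[X]) P.ns
    simpa [c2, c8] using this
  have := id3 (X : R[X]) (C P.lam) (C P.σ) (C P.z) (C (MG.hU P.σ P.z)) (C P.k) (C P.w) (C P.e) _ _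
    hU hl hn hn' he hs hw
  rw [← this]
  simp only [Par.gd, hgd, diagGD, Dat.f, map_add, map_mul, map_sub, map_neg, map_pow, map_one,
    c8, c2, c4, c16, c18, c24]

lemma toLaurent_inj {p q : R[X]} (h : toLaurent p = toLaurent q) : p = q :=
  toLaurent_injective h

/-- `f = X⁶ - 1` on the second chart -/
lemma Par.f2 (P : Par R) : P.gd.d2.f = X ^ 6 - 1 := by
  apply toLaurent_inj
  apply (inv_bijective (R := R)).1
  have h := P.gd.g.e0
  rw [Dat.map_f, P.f1, Dat.map_f] at h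
  rw [← h]
  change (T (-3) : R[T;T⁻¹]) * T (-3) * _ = _
  simp only [map_sub, map_one, map_pow, toLaurent_X, LaurentPolynomial.T_pow, inv_apply, invert_T]
  rw [mul_sub, mul_one, ← T_add, ← T_add]
  norm_num

end Pool.Agent.H927.MG
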