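import Pool.Agent.H927.MG.Alg

/-!
# Homomorphisms between the algebras `BB d`
-/

set_option autoImplicit false

open Polynomial

namespace Pool.Agent.H927.MG

/-- The equations for the map `v ↦ c v`, `W₀ ↦ x W₀ + y W₁`, `W₁ ↦ z W₀ + t W₁` over `φ` to be a
ring homomorphism. -/
structure Mor {A B : Type} [CommRing A] [CommRing B] (φ : A →+* B) (d : Dat A) (d' : Dat B) where
  c : B
  x : B
  y : B
  z : B
  t : B
  e0 : c * c * d'.f = φ d.f
  e1 : x ^ 2 * d'.l - y ^ 2 * d'.m = c * φ d.l
  e2 : (x ^ 2 * d'.l + y ^ 2 * d'.m) * d'.V + 2 * x * y * (d'.l * d'.m * d'.T) = φ d.l * φ d.V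
  e3 : z ^ 2 * d'.l - t ^ 2 * d'.m = -(c * φ d.m)
  e4 : (z ^ 2 * d'.l + t ^ 2 * d'.m) * d'.V + 2 * z * t * (d'.l * d'.m * d'.T) = φ d.m * φ d.V
  e5 : x * z * d'.l - y * t * d'.m = 0
  e6 : (x * z * d'.l + y * t * d'.m) * d'.V + (x * t + y * z) * (d'.l * d'.m * d'.T) =
    φ d.l * φ d.m * φ d.T
  e7 : c * (x * d'.V + y * (d'.m * d'.T)) = φ d.V * x - φ d.l * φ d.T * z
  e8 : -(c * (x * (d'.l * d'.T) + y * d'.V)) = φ d.V * y - φ d.l * φ d.T * t
  e9 : c * (z * d'.V + t * (d'.m * d'.T)) = φ d.m * φ d.T * x - φ d.V * z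
  e10 : -(c * (z * (d'.l * d'.T) + t * d'.V)) = φ d.m * φ d.T * y - φ d.V * t

namespace Mor

variable {A B : Type} [CommRing A] [CommRing B] {φ : A →+* B} {d : Dat A} {d' : Dat B}

/-- the ring homomorphism -/
def hom (g : Mor φ d d') : BB d →+* BB d' :=
  BB.lift ((BB.of d').comp φ) ⟨0, g.c, 0, 0⟩ ⟨0, 0, g.x, g.y⟩ ⟨0, 0, g.z, g.t⟩
    (by
      have := g.e0
      ext <;> simp
      linear_combination this)
    (by
      have h1 := g.e1; have h2 := g.e2
      ext <;> simp
      · linear_combination h2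
      · linear_combination h1)
    (by
      have h1 := g.e3; have h2 := g.e4
      ext <;> simp
      · linear_combination h2
      · linear_combination h1)
    (by
      have h1 := g.e5; have h2 := g.e6
      ext <;> simp
      · linear_combination h2
      · linear_combination h1)
    (by
      have h1 := g.e7; have h2 := g.e8
      ext <;> simp
      · linear_combination h1
      · linear_combination h2)
    (by
      have h1 := g.e9; have h2 := g.e10
      ext <;> simp
      · linear_combination h1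
      · linear_combination h2)

lemma hom_apply (g : Mor φ d d') (w : BB d) :
    g.hom w = ⟨φ w.a, g.c * φ w.b, g.x * φ w.p + g.z * φ w.q, g.y * φ w.p + g.t * φ w.q⟩ := by
  rw [hom, BB.lift_apply]
  ext <;> simp <;> ring

@[simp] lemma hom_of (g : Mor φ d d') (r : A) : g.hom (BB.of d r) = BB.of d' (φ r) := by
  rw [hom_apply]; ext <;> simp

/-- base change of the equations -/
def map {A' B' : Type} [CommRing A'] [CommRing B'] (g : Mor φ d d') (ψ : A →+* A') (χ : B →+* B')
    (φ' : A' →+* B') (h : φ'.comp ψ = χ.comp φ) : Mor φ' (d.map ψ) (d'.map χ) where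
  c := χ g.c
  x := χ g.x
  y := χ g.y
  z := χ g.z
  t := χ g.t
  e0 := by
    have hh : ∀ r, φ' (ψ r) = χ (φ r) := fun r => congr($h r)
    rw [Dat.map_f, Dat.map_f, hh, ← g.e0, map_mul, map_mul]
  e1 := by
    have hh : ∀ r, φ' (ψ r) = χ (φ r) := fun r => congr($h r)
    have := congrArg χ g.e1
    simpa [hh] using this
  e2 := by
    have hh : ∀ r, φ' (ψ r) = χ (φ r) := fun r => congr($h r)
    have := congrArg χ g.e2
    have h2 : χ 2 = 2 := map_ofNat χ 2
    simpa [hh, h2] using this
  e3 := by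
    have hh : ∀ r, φ' (ψ r) = χ (φ r) := fun r => congr($h r)
    have := congrArg χ g.e3
    simpa [hh] using this
  e4 := by
    have hh : ∀ r, φ' (ψ r) = χ (φ r) := fun r => congr($h r)
    have := congrArg χ g.e4
    have h2 : χ 2 = 2 := map_ofNat χ 2
    simpa [hh, h2] using this
  e5 := by
    have := congrArg χ g.e5
    simpa using this
  e6 := by
    have hh : ∀ r, φ' (ψ r) = χ (φ r) := fun r => congr($h r)
    have := congrArg χ g.e6
    simpa [hh] using this
  e7 := by
    have hh : ∀ r, φ' (ψ r) = χ (φ r) := fun r => congr($h r)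
    have := congrArg χ g.e7
    simpa [hh] using this
  e8 := by
    have hh : ∀ r, φ' (ψ r) = χ (φ r) := fun r => congr($h r)
    have := congrArg χ g.e8
    simpa [hh] using this
  e9 := by
    have hh : ∀ r, φ' (ψ r) = χ (φ r) := fun r => congr($h r)
    have := congrArg χ g.e9
    simpa [hh] using this
  e10 := by
    have hh : ∀ r, φ' (ψ r) = χ (φ r) := fun r => congr($h r)
    have := congrArg χ g.e10
    simpa [hh] using this

lemma map_hom {A' B' : Type} [CommRing A'] [CommRing B'] (g : Mor φ d d') (ψ : A →+* A')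
    (χ : B →+* B') (φ' : A' →+* B') (h : φ'.comp ψ = χ.comp φ) (w : BB d) :
    (g.map ψ χ φ' h).hom (BB.map ψ d w) = BB.map χ d' (g.hom w) := by
  have hh : ∀ r, φ' (ψ r) = χ (φ r) := fun r => congr($h r)
  rw [hom_apply, hom_apply]
  ext <;> simp [map, hh]

lemma bijective (g : Mor φ d d') (hφ : Function.Bijective φ) (hc : IsUnit g.c)
    (hd : IsUnit (g.x * g.t - g.y * g.z)) : Function.Bijective g.hom := by
  obtain ⟨c', hc'⟩ := hc.exists_right_inv
  obtain ⟨e, he⟩ := hd.exists_right_inv
  constructor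
  · rw [injective_iff_map_eq_zero]
    intro w hw
    rw [hom_apply] at hw
    have h1 := congrArg BB.a hw
    have h2 := congrArg BB.b hw
    have h3 := congrArg BB.p hw
    have h4 := congrArg BB.q hw
    simp only [BB.zero_a, BB.zero_b, BB.zero_p, BB.zero_q] at h1 h2 h3 h4
    have hz : ∀ r, φ r = 0 → r = 0 := fun r hr => (map_eq_zero_iff φ hφ.1).1 hr
    ext
    · exact hz _ h1
    · apply hz
      linear_combination c' * h2 - φ w.b * hc'
    · apply hz
      linear_combination (e * g.t) * h3 - (e * g.z) * h4 - φ w.p * he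
    · apply hz
      linear_combination (e * g.x) * h4 - (e * g.y) * h3 - φ w.q * he
  · intro w
    obtain ⟨a, ha⟩ := hφ.2 w.a
    obtain ⟨b, hb⟩ := hφ.2 (c' * w.b)
    obtain ⟨p, hp⟩ := hφ.2 (e * (g.t * w.p - g.z * w.q))
    obtain ⟨q, hq⟩ := hφ.2 (e * (g.x * w.q - g.y * w.p))
    refine ⟨⟨a, b, p, q⟩, ?_⟩
    rw [hom_apply]
    ext
    · exact ha
    · simp only [hb]; linear_combination w.b * hc'
    · simp only [hp, hq]; linear_combination w.p * he
    · simp only [hp, hq]; linear_combination w.q * he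

/-- a diagonal map -/
def diag (c x t : B) (h1 : x ^ 2 * d'.l = c * φ d.l) (h2 : t ^ 2 * d'.m = c * φ d.m)
    (h3 : c * d'.V = φ d.V) (h4 : c * x * d'.l * d'.T = φ d.l * φ d.T * t)
    (h5 : c * t * d'.m * d'.T = φ d.m * φ d.T * x)
    (h6 : x * t * (d'.l * d'.m * d'.T) = φ d.l * φ d.m * φ d.T)
    (h7 : c * c * (d'.l * d'.m * d'.T ^ 2) = φ d.l * φ d.m * φ d.T ^ 2) : Mor φ d d' where
  c := c
  x := x
  y := 0
  z := 0
  t := t
  e0 := by
    simp only [Dat.f, map_sub, map_mul, map_pow, ← h3]
    linear_combination -h7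
  e1 := by linear_combination h1
  e2 := by rw [← h3]; linear_combination (d'.V) * h1
  e3 := by linear_combination -h2
  e4 := by rw [← h3]; linear_combination (d'.V) * h2
  e5 := by ring
  e6 := by linear_combination h6
  e7 := by rw [← h3]; ring
  e8 := by linear_combination -h4
  e9 := by linear_combination h5
  e10 := by rw [← h3]; ring

/-- the twist by `a + b √(l m)`, an element of norm one -/
def twist (d : Dat A) (a b : A) (h : a ^ 2 - d.l * d.m * b ^ 2 = 1) : Mor (RingHom.id A)
    (⟨d.l, d.m, d.V * (a ^ 2 + d.l * d.m * b ^ 2) + 2 * a * b * (d.l * d.m) * d.T,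
      d.T * (a ^ 2 + d.l * d.m * b ^ 2) + 2 * a * b * d.V⟩ : Dat A) d where
  c := 1
  x := a
  y := b * d.l
  z := b * d.m
  t := a
  e0 := by
    simp only [Dat.f, RingHom.id_apply]
    linear_combination (-(d.V ^ 2 - d.l * d.m * d.T ^ 2) *
      ((a ^ 2 - d.l * d.m * b ^ 2) + 1)) * h
  e1 := by simp only [RingHom.id_apply]; linear_combination d.l * h
  e2 := by simp only [RingHom.id_apply]; ring
  e3 := by simp only [RingHom.id_apply]; linear_combination (-d.m) * h
  e4 := by simp only [RingHom.id_apply]; ring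
  e5 := by ring
  e6 := by simp only [RingHom.id_apply]; ring
  e7 := by
    simp only [RingHom.id_apply]
    linear_combination (-(a * d.V + b * d.l * d.m * d.T)) * h
  e8 := by
    simp only [RingHom.id_apply]
    linear_combination (a * d.l * d.T + b * d.l * d.V) * h
  e9 := by
    simp only [RingHom.id_apply]
    linear_combination (-(b * d.m * d.V + a * d.m * d.T)) * h
  e10 := by
    simp only [RingHom.id_apply]
    linear_combination (b * d.l * d.m * d.T + a * d.V) * h

end Mor

end Pool.Agent.H927.MG
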