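import Pool.Agent.H927.MG.Goals

/-!
# Statements about the special members of the family
-/

set_option autoImplicit false

open AlgebraicGeometry CategoryTheory Limits Polynomial

open scoped LaurentPolynomial

open LaurentPolynomial (T invert T_add T_zero involutive_invert invert_T invert_C)

namespace Pool.Agent.H927.MG

open Pool.Agent.W523

/-- Parameters of a special curve, `u = 1 + σ²`, `g` is the inverse of `λ² (u + 8)²`. -/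
structure SPar (R : Type) [CommRing R] where
  σ : R
  lam : R
  k : R
  g : R
  s : R
  i : R
  hlam : lam ^ 3 = 1 + σ ^ 2
  hk : k ^ 2 = -((1 + σ ^ 2) ^ 2 + 8) * ((1 + σ ^ 2) ^ 2 + 88 * (1 + σ ^ 2) - 8)
  hg : lam ^ 2 * (9 + σ ^ 2) ^ 2 * g = 1
  hs : s ^ 2 = 8 * σ ^ 2 * lam * (9 + σ ^ 2) * g
  hi : (2 * σ * (8 + 20 * (1 + σ ^ 2) - (1 + σ ^ 2) ^ 2) * g + s) * i = 1

namespace SPar

variable {R S : Type} [CommRing R] [CommRing S] (Q : SPar R)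

def u : R := 1 + Q.σ ^ 2

def μ : R := 2 * Q.σ * (8 + 20 * (1 + Q.σ ^ 2) - (1 + Q.σ ^ 2) ^ 2) * Q.g

def ε : R := 2 * Q.σ * Q.k * Q.g

def ξ₁ : R := Q.μ + Q.ε

def ξ₂ : R := Q.μ - Q.ε

lemma hμ : Q.ξ₁ + Q.ξ₂ = 2 * Q.μ := by simp only [ξ₁, ξ₂]; ring

lemma hξ : Q.ξ₁ * Q.ξ₂ = Q.s ^ 2 := by
  simp only [ξ₁, ξ₂, ε, μ]
  linear_combination (-(4 * Q.σ ^ 2 * Q.g ^ 2)) * Q.hk - Q.hs -
    (8 * Q.σ ^ 2 * (9 + Q.σ ^ 2) ^ 3 * Q.g ^ 2) * Q.hlam +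
    (8 * Q.σ ^ 2 * Q.lam * (9 + Q.σ ^ 2) * Q.g) * Q.hg

lemma hi' : (Q.μ + Q.s) * Q.i = 1 := Q.hi

/-- base change of parameters -/
def map (φ : R →+* S) : SPar S where
  σ := φ Q.σ
  lam := φ Q.lam
  k := φ Q.k
  g := φ Q.g
  s := φ Q.s
  i := φ Q.i
  hlam := by rw [← map_pow, Q.hlam]; simp
  hk := by
    rw [← map_pow, Q.hk]
    have h8 : φ 8 = 8 := map_ofNat φ 8
    have h88 : φ 88 = 88 := map_ofNat φ 88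
    simp [h8, h88]
  hg := by
    have := congrArg φ Q.hg
    have h9 : φ 9 = 9 := map_ofNat φ 9
    simpa [h9] using this
  hs := by
    have := congrArg φ Q.hs
    have h9 : φ 9 = 9 := map_ofNat φ 9
    have h8 : φ 8 = 8 := map_ofNat φ 8
    simpa [h9, h8] using this
  hi := by
    have := congrArg φ Q.hi
    have h8 : φ 8 = 8 := map_ofNat φ 8
    have h2 : φ 2 = 2 := map_ofNat φ 2
    have h20 : φ 20 = 20 := map_ofNat φ 20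
    simpa [h8, h2, h20] using this

/-- `Ã` -/
noncomputable def At : R[X] :=
  C (8 - 16 * Q.u - Q.u ^ 2) + C (24 * Q.σ * Q.lam ^ 2) * X - C (18 * Q.lam ^ 4) * X ^ 2 +
    C (4 * Q.σ * (Q.u + 2)) * X ^ 3

/-- `Q̃ = λ (u + 8) T` -/
noncomputable def Qt : R[X] :=
  C (Q.lam * (Q.u + 8)) * (C (2 * Q.lam) - C (2 * Q.σ) * X + C (Q.lam ^ 2) * X ^ 2)

/-- `ℓ = (X - ξ₁) (X - ξ₂)` -/
noncomputable def ll : R[X] := (X - C Q.ξ₁) * (X - C Q.ξ₂)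

/-- `m₀ = X - μ` -/
noncomputable def mm : R[X] := X - C Q.μ

/-- the polynomials `V`, `T` of the first chart -/
structure VT (V T₁ : R[X]) : Prop where
  hV : C ((Q.u ^ 2 + 8) * Q.ε ^ 2) * V = Q.At * (Q.mm ^ 2 + Q.ll) - 2 * Q.mm * Q.ll * Q.Qt
  hT : C ((Q.u ^ 2 + 8) * Q.ε ^ 2) * T₁ = Q.Qt * (Q.mm ^ 2 + Q.ll) - 2 * Q.mm * Q.At

/-- the polynomials `V`, `T` of the second chart -/
structure VT2 (V T₁ V₂ T₂ : R[X]) : Prop where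
  hV : inv R (toLaurent V₂) = T (-3) * (toLaurent V * (sA Q.μ Q.s Q.i ^ 2 + slm Q.ξ₁ Q.ξ₂ *
      sB Q.s Q.i ^ 2) + 2 * sA Q.μ Q.s Q.i * sB Q.s Q.i * slm Q.ξ₁ Q.ξ₂ * toLaurent T₁)
  hT : inv R (toLaurent T₂) = T (-2) * (toLaurent T₁ * (sA Q.μ Q.s Q.i ^ 2 + slm Q.ξ₁ Q.ξ₂ *
      sB Q.s Q.i ^ 2) + 2 * sA Q.μ Q.s Q.i * sB Q.s Q.i * toLaurent V)

/-- the special curve -/
noncomputable def gd {V T₁ V₂ T₂ : R[X]} (h : Q.VT2 V T₁ V₂ T₂) : GD R :=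
  sgd Q.ξ₁ Q.ξ₂ Q.μ Q.s Q.i V T₁ V₂ T₂ Q.hμ Q.hξ Q.hi' h.hV h.hT

end SPar

/-- SPa -/
def S_spa : Prop := ∀ σ₀ : ℂ, σ₀ ^ 2 - 2 * σ₀ + 3 = 0 → ∃ Q : SPar (PowerSeries ℂ),
  Q.σ = PowerSeries.C σ₀ + PowerSeries.X ^ 6 ∧ ∃ V T₁, Q.VT V T₁

/-- SPb -/
def S_spb : Prop := ∀ (R : Type) [CommRing R] [IsDomain R] (Q : SPar R) (V T₁ : R[X]),
  (Q.u ^ 2 + 8) * Q.ε ^ 2 ≠ 0 → Q.VT V T₁ → ∃ V₂ T₂, Q.VT2 V T₁ V₂ T₂

/-- SPc -/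
def S_spc : Prop := ∀ (K : Type) [Field K] [CharZero K] (Q : SPar K) (V T₁ V₂ T₂ : K[X])
  (P : Par K), P.σ = Q.σ → P.z = 1 → P.lam = Q.lam → P.k = Q.k → Q.ε ≠ 0 → Q.VT V T₁ →
  ∀ h : Q.VT2 V T₁ V₂ T₂, GIso (Q.gd h) P.gd

/-- SPd -/
def S_spd : Prop := ∀ (R S : Type) [CommRing R] [CommRing S] (φ : R →+* S) (Q : SPar R)
  (V T₁ V₂ T₂ : R[X]), (Q.VT V T₁ → (Q.map φ).VT (V.map φ) (T₁.map φ)) ∧
  ∀ h : Q.VT2 V T₁ V₂ T₂, ∃ h' : (Q.map φ).VT2 (V.map φ) (T₁.map φ) (V₂.map φ) (T₂.map φ),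
    (Q.gd h).map φ = (Q.map φ).gd h'

end Pool.Agent.H927.MG
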