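import Pool.Agent.H927.MG.Iso

/-!
# The data of the special members of the family
-/

set_option autoImplicit false

open AlgebraicGeometry CategoryTheory Limits Polynomial

open scoped LaurentPolynomial

open LaurentPolynomial (T invert T_add T_zero involutive_invert invert_T invert_C)

namespace Pool.Agent.H927.MG

open Pool.Agent.W523

variable {R S : Type} [CommRing R] [CommRing S]

/-- The map `v ↦ T⁻³ v`, `W₀ ↦ T⁻² W₀`, `W₁ ↦ T⁻² W₁`. -/
noncomputable def diagMor (d d' : Dat R[T;T⁻¹]) (hl : inv R d.l = T (-1) * d'.l)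
    (hm : inv R d.m = T (-1) * d'.m) (hV : inv R d.V = T (-3) * d'.V)
    (hT : inv R d.T = T (-2) * d'.T) : Mor (inv R) d d' :=
  Mor.diag (T (-3)) (T (-2)) (T (-2))
    (by rw [hl, ← mul_assoc, ← T_add, LaurentPolynomial.T_pow]; norm_num)
    (by rw [hm, ← mul_assoc, ← T_add, LaurentPolynomial.T_pow]; norm_num)
    (by rw [hV])
    (by
      rw [hl, hT]
      have h : (T (-3) : R[T;T⁻¹]) = T (-1) * T (-2) := by rw [← T_add]; norm_num
      rw [h]; ring)
    (by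
      rw [hm, hT]
      have h : (T (-3) : R[T;T⁻¹]) = T (-1) * T (-2) := by rw [← T_add]; norm_num
      rw [h]; ring)
    (by
      rw [hl, hm, hT]
      have h : (T (-2) : R[T;T⁻¹]) = T (-1) * T (-1) := by rw [← T_add]; norm_num
      rw [h]; ring)
    (by
      rw [hl, hm, hT]
      have h : (T (-3) : R[T;T⁻¹]) = T (-1) * T (-2) := by rw [← T_add]; norm_num
      rw [h]; ring)

/-- `b = (s T⁻¹ + 1) i` -/
noncomputable def sB (s i : R) : R[T;T⁻¹] :=
  (LaurentPolynomial.C s * T (-1) + 1) * LaurentPolynomial.C i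

/-- `a = (T - μ) b + s T⁻¹` -/
noncomputable def sA (μ s i : R) : R[T;T⁻¹] :=
  (T 1 - LaurentPolynomial.C μ) * sB s i + LaurentPolynomial.C s * T (-1)

/-- `l m` -/
noncomputable def slm (ξ₁ ξ₂ : R) : R[T;T⁻¹] :=
  (T 1 - LaurentPolynomial.C ξ₁) * (T 1 - LaurentPolynomial.C ξ₂)

lemma s_norm {ξ₁ ξ₂ μ s i : R} (hμ : ξ₁ + ξ₂ = 2 * μ) (hs : ξ₁ * ξ₂ = s ^ 2)
    (hi : (μ + s) * i = 1) : sA μ s i ^ 2 - slm ξ₁ ξ₂ * sB s i ^ 2 = 1 := by
  have h1 := congrArg (LaurentPolynomial.C : R →+* R[T;T⁻¹]) hμ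
  have h2 := congrArg (LaurentPolynomial.C : R →+* R[T;T⁻¹]) hs
  have h3 := congrArg (LaurentPolynomial.C : R →+* R[T;T⁻¹]) hi
  have h4 : (T 1 : R[T;T⁻¹]) * T (-1) = 1 := by rw [← T_add]; norm_num
  have h5 : (LaurentPolynomial.C 2 : R[T;T⁻¹]) = 2 := map_ofNat _ 2
  simp only [map_add, map_mul, map_pow, map_one, h5] at h1 h2 h3
  simp only [sA, sB, slm]
  generalize (T 1 : R[T;T⁻¹]) = x at *
  generalize (T (-1) : R[T;T⁻¹]) = y at *
  generalize (LaurentPolynomial.C ξ₁ : R[T;T⁻¹]) = a at *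
  generalize (LaurentPolynomial.C ξ₂ : R[T;T⁻¹]) = b at *
  generalize (LaurentPolynomial.C μ : R[T;T⁻¹]) = m at *
  generalize (LaurentPolynomial.C s : R[T;T⁻¹]) = s at *
  generalize (LaurentPolynomial.C i : R[T;T⁻¹]) = j at *
  linear_combination (x * ((s * y + 1) * j) ^ 2) * h1 - ((s * y + 1) * j) ^ 2 * h2 +
    (2 * y * s ^ 2 * j + 2 * s * j) * h4 + (y ^ 2 * s ^ 2 * ((m - s) * j - 1) +
      2 * y * s * (m - s) * j + (m - s) * j + 1) * h3

/-- The data of a special curve. -/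
noncomputable def sgd (ξ₁ ξ₂ μ s i : R) (V T₁ V₂ T₂ : R[X]) (hμ : ξ₁ + ξ₂ = 2 * μ)
    (hs : ξ₁ * ξ₂ = s ^ 2) (hi : (μ + s) * i = 1)
    (hV : inv R (toLaurent V₂) = T (-3) * (toLaurent V * (sA μ s i ^ 2 + slm ξ₁ ξ₂ * sB s i ^ 2) +
      2 * sA μ s i * sB s i * slm ξ₁ ξ₂ * toLaurent T₁))
    (hT : inv R (toLaurent T₂) = T (-2) * (toLaurent T₁ * (sA μ s i ^ 2 + slm ξ₁ ξ₂ * sB s i ^ 2) +
      2 * sA μ s i * sB s i * toLaurent V)) : GD R where
  d1 := ⟨X - C ξ₁, X - C ξ₂, V, T₁⟩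
  d2 := ⟨1 - C ξ₁ * X, 1 - C ξ₂ * X, V₂, T₂⟩
  g := (diagMor (⟨1 - C ξ₁ * X, 1 - C ξ₂ * X, V₂, T₂⟩ : Dat R[X]).L
      ⟨T 1 - LaurentPolynomial.C ξ₁, T 1 - LaurentPolynomial.C ξ₂,
        toLaurent V * (sA μ s i ^ 2 + slm ξ₁ ξ₂ * sB s i ^ 2) +
          2 * sA μ s i * sB s i * slm ξ₁ ξ₂ * toLaurent T₁,
        toLaurent T₁ * (sA μ s i ^ 2 + slm ξ₁ ξ₂ * sB s i ^ 2) +
          2 * sA μ s i * sB s i * toLaurent V⟩
      (by
        simp only [Dat.map_l, map_mul, map_sub, map_one, toLaurent_C, toLaurent_X, inv_apply,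
          invert_C, invert_T]
        rw [mul_sub, ← T_add]; norm_num)
      (by
        simp only [Dat.map_m, map_mul, map_sub, map_one, toLaurent_C, toLaurent_X, inv_apply,
          invert_C, invert_T]
        rw [mul_sub, ← T_add]; norm_num)
      hV hT).comp
    ((Mor.twist (⟨X - C ξ₁, X - C ξ₂, V, T₁⟩ : Dat R[X]).L (sA μ s i) (sB s i) (by
        simp only [Dat.map_l, Dat.map_m, map_sub, toLaurent_C, toLaurent_X]
        exact s_norm hμ hs hi)).copy (by
        ext1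
        · simp only [Dat.map_l, map_sub, toLaurent_C, toLaurent_X]
        · simp only [Dat.map_m, map_sub, toLaurent_C, toLaurent_X]
        · simp only [Dat.map_l, Dat.map_m, Dat.map_V, Dat.map_T, map_sub, toLaurent_C,
            toLaurent_X, slm]
        · simp only [Dat.map_l, Dat.map_m, Dat.map_V, Dat.map_T, map_sub, toLaurent_C,
            toLaurent_X, slm]) rfl) rfl
  hc := by
    change IsUnit ((T (-3) : R[T;T⁻¹]) * 1)
    rw [mul_one]
    exact LaurentPolynomial.isUnit_T _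
  hdet := by
    have h := s_norm hμ hs hi
    simp only [slm] at h
    simp only [Mor.comp, diagMor, Mor.diag, Mor.copy, Mor.twist, Dat.map_l, Dat.map_m, map_sub,
      toLaurent_C, toLaurent_X, RingHom.id_apply, zero_mul, add_zero, zero_add]
    have h2 : T (-2) * sA μ s i * (T (-2) * sA μ s i) -
        T (-2) * (sB s i * (T 1 - LaurentPolynomial.C ξ₁)) *
          (T (-2) * (sB s i * (T 1 - LaurentPolynomial.C ξ₂))) = (T (-4) : R[T;T⁻¹]) := by
      have h4 : (T (-4) : R[T;T⁻¹]) = T (-2) * T (-2) := by rw [← T_add]; norm_num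
      rw [h4]
      linear_combination (T (-2) * T (-2) : R[T;T⁻¹]) * h
    rw [h2]
    exact LaurentPolynomial.isUnit_T _

end Pool.Agent.H927.MG
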