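import Pool.Agent.H927.MG.Final

/-!
# The special arcs
-/

set_option autoImplicit false

open AlgebraicGeometry CategoryTheory Limits Polynomial

open scoped LaurentPolynomial

open LaurentPolynomial (T invert T_add T_zero involutive_invert invert_T invert_C)

namespace Pool.Agent.H927.MG

open Pool.Agent.W523

namespace SPar

section ring

variable {R : Type} [CommRing R] (Q : SPar R)

lemma mm_ll : Q.mm ^ 2 - Q.ll = C (Q.ε ^ 2) := by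
  have h1 : C Q.ξ₁ = C Q.μ + C Q.ε := by rw [ξ₁, map_add]
  have h2 : C Q.ξ₂ = C Q.μ - C Q.ε := by rw [ξ₂, map_sub]
  rw [mm, ll, h1, h2, map_pow]
  ring

/-- `At² - ll Qt² = (u² + 8)² (1 - X⁶)` -/
lemma At_Qt : Q.At ^ 2 - Q.ll * Q.Qt ^ 2 = C ((Q.u ^ 2 + 8) ^ 2) * (1 - X ^ 6) := by
  have hl : (C Q.lam) ^ 3 = C Q.u := by rw [← map_pow, Q.hlam]; rfl
  have hu : C Q.u = (C Q.σ) ^ 2 + (1 : R[X]) ^ 6 := by simp [u]; ring
  have h := id1 (X : R[X]) (C Q.lam) (C Q.σ) 1 (C Q.u) hu hl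
  have hg := congrArg (C : R →+* R[X]) Q.hg
  have hξ := congrArg (C : R →+* R[X]) Q.hξ
  have hμ := congrArg (C : R →+* R[X]) Q.hμ
  have hs := congrArg (C : R →+* R[X]) Q.hs
  have c8 : (C 8 : R[X]) = 8 := map_ofNat C 8
  have c9 : (C 9 : R[X]) = 9 := map_ofNat C 9
  have c2 : (C 2 : R[X]) = 2 := map_ofNat C 2
  have c4 : (C 4 : R[X]) = 4 := map_ofNat C 4
  have c16 : (C 16 : R[X]) = 16 := map_ofNat C 16
  have c18 : (C 18 : R[X]) = 18 := map_ofNat C 18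
  have c20 : (C 20 : R[X]) = 20 := map_ofNat C 20
  have c24 : (C 24 : R[X]) = 24 := map_ofNat C 24
  simp only [map_add, map_mul, map_pow, map_one, c8, c9, c2] at hg hξ hμ hs
  have hμ' : C Q.μ = 2 * C Q.σ * (8 + 20 * C Q.u - C Q.u ^ 2) * C Q.g := by
    simp [μ, u, c8, c2, c20]
  have hu9 : C Q.u + 8 = 9 + (C Q.σ) ^ 2 := by rw [hu]; ring
  -- `E ll = L'`
  have hL : C Q.lam ^ 2 * (C Q.u + 8) ^ 2 * Q.ll =
      C Q.lam ^ 2 * (C Q.u + 8) ^ 2 * X ^ 2 -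
        4 * C Q.σ * (8 + 20 * C Q.u - C Q.u ^ 2) * X +
        8 * C Q.σ ^ 2 * C Q.lam * (C Q.u + 8) := by
    have h1 : Q.ll = X ^ 2 - (C Q.ξ₁ + C Q.ξ₂) * X + C Q.ξ₁ * C Q.ξ₂ := by rw [ll]; ring
    rw [h1, hξ, hμ, hμ', hs, hu9]
    linear_combination (-4 * C Q.σ * (8 + 20 * C Q.u - C Q.u ^ 2) * X +
      8 * C Q.σ ^ 2 * C Q.lam * (9 + (C Q.σ) ^ 2)) * hg
  have hAt : Q.At = (8 * 1 ^ 12 - 16 * C Q.u * 1 ^ 6 - C Q.u ^ 2) +
      24 * C Q.σ * C Q.lam ^ 2 * 1 ^ 5 * X - 18 * C Q.lam ^ 4 * 1 ^ 4 * X ^ 2 +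
      4 * C Q.σ * 1 ^ 3 * (C Q.u + 2 * 1 ^ 6) * X ^ 3 := by
    simp only [At, map_add, map_mul, map_sub, map_pow, c8, c16, c24, c18, c4, c2]
    ring
  have hQt : Q.Qt = C Q.lam * (C Q.u + 8) *
      (C Q.lam ^ 2 * X ^ 2 - 2 * C Q.σ * 1 * X + 2 * C Q.lam * 1 ^ 2) := by
    simp only [Qt, map_add, map_mul, map_pow, c8, c2]
    ring
  rw [hAt, hQt]
  simp only [map_add, map_pow, c8]
  linear_combination h - ((C Q.lam ^ 2 * X ^ 2 - 2 * C Q.σ * 1 * X + 2 * C Q.lam * 1 ^ 2) ^ 2) * hL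

lemma f_eq [IsDomain R] {V T₁ : R[X]} (h : Q.VT V T₁) (h0 : (Q.u ^ 2 + 8) * Q.ε ^ 2 ≠ 0) :
    V ^ 2 - Q.ll * T₁ ^ 2 = 1 - X ^ 6 := by
  have h1 : (C ((Q.u ^ 2 + 8) * Q.ε ^ 2)) ^ 2 * (V ^ 2 - Q.ll * T₁ ^ 2) =
      (C ((Q.u ^ 2 + 8) * Q.ε ^ 2)) ^ 2 * (1 - X ^ 6) := by
    have e1 := h.hV
    have e2 := h.hT
    have e3 := Q.mm_ll
    have e4 := Q.At_Qt
    have e5 : (C ((Q.u ^ 2 + 8) * Q.ε ^ 2)) ^ 2 = C ((Q.u ^ 2 + 8) ^ 2) * (C (Q.ε ^ 2)) ^ 2 := by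
      rw [← map_pow, ← map_pow, ← map_mul]; congr 1; ring
    calc (C ((Q.u ^ 2 + 8) * Q.ε ^ 2)) ^ 2 * (V ^ 2 - Q.ll * T₁ ^ 2)
        = (C ((Q.u ^ 2 + 8) * Q.ε ^ 2) * V) ^ 2 -
          Q.ll * (C ((Q.u ^ 2 + 8) * Q.ε ^ 2) * T₁) ^ 2 := by ring
      _ = (Q.At ^ 2 - Q.ll * Q.Qt ^ 2) * (Q.mm ^ 2 - Q.ll) ^ 2 := by rw [e1, e2]; ring
      _ = _ := by rw [e3, e4, e5]; ring
  refine mul_left_cancel₀ (pow_ne_zero 2 ?_) h1
  rwa [Ne, C_eq_zero]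

lemma f2_eq {G : GD R} (hf : G.d1.f = 1 - X ^ 6) (hc : G.g.c = T (-3)) :
    G.d2.f = X ^ 6 - 1 := by
  apply toLaurent_inj
  apply (inv_bijective (R := R)).1
  have h := G.g.e0
  rw [Dat.map_f, hf, Dat.map_f, hc] at h
  rw [← h]
  simp only [map_sub, map_one, map_pow, toLaurent_X, LaurentPolynomial.T_pow, inv_apply, invert_T]
  rw [mul_sub, mul_one, ← T_add, ← T_add]
  norm_num

lemma cop1 (h6 : IsUnit (6 : R)) : IsCoprime (1 - X ^ 6 : R[X]) (derivative (1 - X ^ 6 : R[X])) := by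
  obtain ⟨v, hv⟩ := h6.exists_right_inv
  have hv' := congrArg (C : R →+* R[X]) hv
  have c6 : (C 6 : R[X]) = 6 := map_ofNat C 6
  simp only [map_mul, map_one, c6] at hv'
  refine ⟨1, -(C v * X), ?_⟩
  simp only [derivative_sub, derivative_one, derivative_X_pow]
  norm_num
  rw [c6]
  linear_combination X ^ 6 * hv'

lemma cop2 (h6 : IsUnit (6 : R)) : IsCoprime (X ^ 6 - 1 : R[X]) (derivative (X ^ 6 - 1 : R[X])) := by
  obtain ⟨v, hv⟩ := h6.exists_right_inv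
  have hv' := congrArg (C : R →+* R[X]) hv
  have c6 : (C 6 : R[X]) = 6 := map_ofNat C 6
  simp only [map_mul, map_one, c6] at hv'
  refine ⟨-1, C v * X, ?_⟩
  simp only [derivative_sub, derivative_one, derivative_X_pow]
  norm_num
  rw [c6]
  linear_combination X ^ 6 * hv'

lemma good1 [IsDomain R] {V T₁ V₂ T₂ : R[X]} (h : Q.VT V T₁) (h2 : Q.VT2 V T₁ V₂ T₂)
    (h0 : (Q.u ^ 2 + 8) * Q.ε ^ 2 ≠ 0) (h6 : IsUnit (6 : R)) : Good (Q.gd h2).d1 := by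
  have hf : (Q.gd h2).d1.f = 1 - X ^ 6 := Q.f_eq h h0
  refine ⟨?_, ?_, ?_⟩
  · rw [hf]; exact cop1 h6
  · change IsCoprime (X - C Q.ξ₁) (derivative (X - C Q.ξ₁))
    rw [derivative_sub, derivative_X, derivative_C, sub_zero]
    exact isCoprime_one_right
  · change IsCoprime (X - C Q.ξ₂) (derivative (X - C Q.ξ₂))
    rw [derivative_sub, derivative_X, derivative_C, sub_zero]
    exact isCoprime_one_right

lemma gd_c {V T₁ V₂ T₂ : R[X]} (h2 : Q.VT2 V T₁ V₂ T₂) : (Q.gd h2).g.c = T (-3) := by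
  change T (-3) * 1 = _
  rw [mul_one]

lemma gd_x {V T₁ V₂ T₂ : R[X]} (h2 : Q.VT2 V T₁ V₂ T₂) :
    (Q.gd h2).g.x = T (-2) * sA Q.μ Q.s Q.i := by
  change T (-2) * _ + 0 * _ = _
  rw [zero_mul, add_zero]; rfl

lemma gd_t {V T₁ V₂ T₂ : R[X]} (h2 : Q.VT2 V T₁ V₂ T₂) :
    (Q.gd h2).g.t = T (-2) * sA Q.μ Q.s Q.i := by
  change 0 * _ + T (-2) * _ = _
  rw [zero_mul, zero_add]; rfl

lemma gd_y {V T₁ V₂ T₂ : R[X]} (h2 : Q.VT2 V T₁ V₂ T₂) :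
    (Q.gd h2).g.y = T (-2) * (sB Q.s Q.i * (T 1 - LaurentPolynomial.C Q.ξ₁)) := by
  change T (-2) * (sB Q.s Q.i * toLaurent (X - C Q.ξ₁)) + 0 * _ = _
  rw [zero_mul, add_zero, map_sub, toLaurent_X, toLaurent_C]

lemma gd_z {V T₁ V₂ T₂ : R[X]} (h2 : Q.VT2 V T₁ V₂ T₂) :
    (Q.gd h2).g.z = T (-2) * (sB Q.s Q.i * (T 1 - LaurentPolynomial.C Q.ξ₂)) := by
  change 0 * _ + T (-2) * (sB Q.s Q.i * toLaurent (X - C Q.ξ₂)) = _
  rw [zero_mul, zero_add, map_sub, toLaurent_X, toLaurent_C]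

lemma good2 [IsDomain R] {V T₁ V₂ T₂ : R[X]} (h : Q.VT V T₁) (h2 : Q.VT2 V T₁ V₂ T₂)
    (h0 : (Q.u ^ 2 + 8) * Q.ε ^ 2 ≠ 0) (h6 : IsUnit (6 : R)) : Good (Q.gd h2).d2 := by
  have hf : (Q.gd h2).d2.f = X ^ 6 - 1 := f2_eq (Q.f_eq h h0) (Q.gd_c h2)
  refine ⟨?_, ?_, ?_⟩
  · rw [hf]; exact cop2 h6
  · change IsCoprime (1 - C Q.ξ₁ * X) (derivative (1 - C Q.ξ₁ * X))
    refine ⟨1, -X, ?_⟩
    simp only [derivative_sub, derivative_one, derivative_C_mul, derivative_X]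
    ring
  · change IsCoprime (1 - C Q.ξ₂ * X) (derivative (1 - C Q.ξ₂ * X))
    refine ⟨1, -X, ?_⟩
    simp only [derivative_sub, derivative_one, derivative_C_mul, derivative_X]
    ring

end ring

section field

variable {K : Type} [Field K] (Q : SPar K)

/-- the ordinary parameters attached to special parameters with `ε ≠ 0` -/
lemma exists_par [CharZero K] (hε : Q.ε ≠ 0) :
    ∃ P : Par K, P.σ = Q.σ ∧ P.z = 1 ∧ P.lam = Q.lam ∧ P.k = Q.k := by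
  have hg : Q.g ≠ 0 := by
    intro h0; have := Q.hg; rw [h0, mul_zero] at this; exact zero_ne_one this
  have hk : Q.k ≠ 0 := by
    intro h0; apply hε; rw [ε, h0]; ring
  have hu8 : (1 + Q.σ ^ 2) ^ 2 + 8 ≠ 0 := by
    intro h0
    have := Q.hk
    rw [h0, neg_zero, zero_mul] at this
    exact hk (pow_eq_zero_iff (by norm_num) |>.1 this)
  have hlam : Q.lam ≠ 0 := by
    intro h0; have := Q.hg; rw [h0] at this; norm_num at this
  have h9 : 9 + Q.σ ^ 2 ≠ 0 := by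
    intro h0; have := Q.hg; rw [h0] at this; norm_num at this
  have hu : 1 + Q.σ ^ 2 ≠ 0 := by rw [← Q.hlam]; exact pow_ne_zero _ hlam
  have hUe : hU Q.σ 1 = 1 + Q.σ ^ 2 := by rw [hU]; ring
  have hn0 : hn Q.σ 1 Q.k ≠ 0 := by
    intro h0
    have h1 : hn Q.σ 1 Q.k * hn Q.σ 1 (-Q.k) = 2 * (1 + Q.σ ^ 2) * (9 + Q.σ ^ 2) ^ 3 := by
      simp only [hn, hUe]
      linear_combination (-1 : K) * Q.hk
    rw [h0, zero_mul] at h1
    exact mul_ne_zero (mul_ne_zero two_ne_zero hu) (pow_ne_zero 3 h9) h1.symm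
  exact ⟨{ σ := Q.σ
           z := 1
           lam := Q.lam
           k := Q.k
           w := ((1 + Q.σ ^ 2) ^ 2 + 8)⁻¹
           e := (hn Q.σ 1 Q.k)⁻¹
           hlam := by rw [Q.hlam, hUe]
           hk := by rw [Q.hk, hUe]; ring
           hw := by rw [hUe, one_pow, mul_one]; exact mul_inv_cancel₀ hu8
           he := mul_inv_cancel₀ hn0 }, rfl, rfl, rfl, rfl⟩

/-- the cohomology of the fibre with `ε = 0` -/
lemma cohom_zero [CharZero K] (hcm : S_cohom_m) {V T₁ V₂ T₂ : K[X]} (h2 : Q.VT2 V T₁ V₂ T₂)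
    (hε : Q.ε = 0) : Cohom (Q.gd h2) := by
  have h1 : Q.ξ₁ = Q.μ := by rw [ξ₁, hε, add_zero]
  have h1' : Q.ξ₂ = Q.μ := by rw [ξ₂, hε, sub_zero]
  have hs : Q.s = Q.μ := by
    have e1 := Q.hξ
    rw [h1, h1'] at e1
    have e2 := Q.hi'
    have e3 : (Q.μ - Q.s) * (Q.μ + Q.s) = 0 := by linear_combination e1
    have e4 : Q.μ + Q.s ≠ 0 := by
      intro h0; rw [h0, zero_mul] at e2; exact zero_ne_one e2
    exact (sub_eq_zero.1 ((mul_eq_zero.1 e3).resolve_right e4)).symm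
  have hμ0 : Q.μ ≠ 0 := by
    intro h0
    have e2 := Q.hi'
    rw [hs, h0, add_zero, zero_mul] at e2
    exact zero_ne_one e2
  have hi : 2 * Q.μ * Q.i = 1 := by
    have e2 := Q.hi'
    rw [hs] at e2
    linear_combination e2
  have L2 : (LaurentPolynomial.C 2 : K[T;T⁻¹]) = 2 := map_ofNat _ 2
  have e1 := congrArg (LaurentPolynomial.C : K →+* K[T;T⁻¹]) hi
  have e2 := congrArg (LaurentPolynomial.C : K →+* K[T;T⁻¹]) (mul_inv_cancel₀ hμ0)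
  simp only [map_mul, map_one, L2] at e1 e2
  have t1 : (T (-1) : K[T;T⁻¹]) * T 1 = 1 := by rw [← T_add]; norm_num
  have t2 : (T (-2) : K[T;T⁻¹]) = T (-1) * T (-1) := by rw [← T_add]; norm_num
  have t3 : (T (-3) : K[T;T⁻¹]) = T (-1) * T (-1) * T (-1) := by
    rw [← T_add, ← T_add]; norm_num
  refine hcm K (Q.gd h2) Q.μ⁻¹ Q.μ (inv_ne_zero hμ0) hμ0 two_ne_zero (Q.gd_c h2) ?_ ?_ ?_ ?_
  · rw [gd_x, gd_t]
  · rw [gd_y, gd_z, h1, h1']
  · rw [gd_x, gd_y, h1, hs, sA, sB, t2]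
    generalize (T (-1) : K[T;T⁻¹]) = y at *
    generalize (T 1 : K[T;T⁻¹]) = x at *
    generalize (LaurentPolynomial.C Q.μ : K[T;T⁻¹]) = m at *
    generalize (LaurentPolynomial.C Q.i : K[T;T⁻¹]) = j at *
    generalize (LaurentPolynomial.C Q.μ⁻¹ : K[T;T⁻¹]) = n at *
    linear_combination (2 * y ^ 2 * j * m + 2 * y * j) * t1 - (m * y ^ 3) * e1 +
      y * (-(2 * j) * e2 + n * e1)
  · rw [gd_x, gd_y, h1, hs, sA, sB, t2, t3]
    generalize (T (-1) : K[T;T⁻¹]) = y at *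
    generalize (T 1 : K[T;T⁻¹]) = x at *
    generalize (LaurentPolynomial.C Q.μ : K[T;T⁻¹]) = m at *
    generalize (LaurentPolynomial.C Q.i : K[T;T⁻¹]) = j at *
    ring

end field

end SPar

theorem special_of (hfam : S_family) (hch : S_cohom_h) (hci : S_cohom_iso) (hcm : S_cohom_m)
    (ha : S_spa) (hb : S_spb) (hc : S_spc) (hd : S_spd) : S_special := by
  intro σ₀ hσ₀
  obtain ⟨Q, hQ, V, T₁, hVT⟩ := ha σ₀ hσ₀
  -- nonvanishing
  have huu : Q.u = uu σ₀ := by rw [SPar.u, hQ, uu]; ring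
  have hnc : ∀ c : ℂ, Q.u - PowerSeries.C c ≠ 0 := by
    intro c h0
    exact uu_ne σ₀ c (by rw [← huu]; exact sub_eq_zero.1 h0)
  have hσ : Q.σ ≠ 0 := by
    rw [hQ]
    have := pX6_ne 0 σ₀
    rwa [map_zero] at this
  have quad : ∀ a b : ℂ, Q.u ^ 2 + PowerSeries.C a * Q.u + PowerSeries.C b ≠ 0 := by
    intro a b h0
    obtain ⟨r, hr⟩ := IsAlgClosed.exists_pow_nat_eq (a ^ 2 / 4 - b) (n := 2) (by norm_num)
    have h1 : (Q.u - PowerSeries.C (-a / 2 + r)) * (Q.u - PowerSeries.C (-a / 2 - r)) = 0 := by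
      have e1 : (PowerSeries.C (-a / 2 + r) + PowerSeries.C (-a / 2 - r) : PowerSeries ℂ) =
          -PowerSeries.C a := by rw [← map_add, ← map_neg]; congr 1; ring
      have e2 : (PowerSeries.C (-a / 2 + r) * PowerSeries.C (-a / 2 - r) : PowerSeries ℂ) =
          PowerSeries.C b := by
        rw [← map_mul]; congr 1; linear_combination (-1 : ℂ) * hr
      linear_combination h0 - Q.u * e1 + e2
    rcases mul_eq_zero.1 h1 with h2 | h2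
    · exact hnc _ h2
    · exact hnc _ h2
  have c8 : (PowerSeries.C 8 : PowerSeries ℂ) = 8 := map_ofNat PowerSeries.C 8
  have c88 : (PowerSeries.C 88 : PowerSeries ℂ) = 88 := map_ofNat PowerSeries.C 88
  have hu8 : Q.u ^ 2 + 8 ≠ 0 := by
    have := quad 0 8
    rwa [map_zero, zero_mul, add_zero, c8] at this
  have hu88 : Q.u ^ 2 + 88 * Q.u - 8 ≠ 0 := by
    have := quad 88 (-8)
    rw [map_neg, c8, c88] at this
    rwa [sub_eq_add_neg]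
  have hk : Q.k ≠ 0 := by
    intro h0
    have h1 := Q.hk
    rw [h0] at h1
    have h2 : (Q.u ^ 2 + 8) * (Q.u ^ 2 + 88 * Q.u - 8) = 0 := by
      rw [SPar.u]; linear_combination h1
    exact mul_ne_zero hu8 hu88 h2
  have hg : Q.g ≠ 0 := by
    intro h0; have := Q.hg; rw [h0, mul_zero] at this; exact zero_ne_one this
  have hε : Q.ε ≠ 0 := by
    rw [SPar.ε]
    have h22 : IsUnit (2 : PowerSeries ℂ) := isUnit_of_dvd_unit ⟨3, by norm_num⟩ isUnit6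
    exact mul_ne_zero (mul_ne_zero (mul_ne_zero h22.ne_zero hσ) hk) hg
  have h0 : (Q.u ^ 2 + 8) * Q.ε ^ 2 ≠ 0 := mul_ne_zero hu8 (pow_ne_zero 2 hε)
  obtain ⟨V₂, T₂, h2⟩ := hb _ Q V T₁ h0 hVT
  have h6 : IsUnit (6 : PowerSeries ℂ) := isUnit6
  have h22 : IsUnit (2 : PowerSeries ℂ) := isUnit_of_dvd_unit ⟨3, by norm_num⟩ h6
  -- fibres with `ε ≠ 0`
  have gen : ∀ (K : Type) [Field K] (φ : PowerSeries ℂ →+* K), φ Q.ε ≠ 0 → ∃ P : Par K,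
      P.σ = φ Q.σ ∧ P.z = 1 ∧ GIso ((Q.gd h2).map φ) P.gd := by
    intro K _ φ hφ
    have : CharZero K := charZero_of_injective_ringHom (φ.comp PowerSeries.C).injective
    obtain ⟨hd1, hd2⟩ := hd _ K φ Q V T₁ V₂ T₂
    obtain ⟨h', e'⟩ := hd2 h2
    have hε' : (Q.map φ).ε ≠ 0 := by
      have : (Q.map φ).ε = φ Q.ε := by
        simp only [SPar.ε, SPar.map, map_mul, map_ofNat]
      rw [this]; exact hφ
    obtain ⟨P, p1, p2, p3, p4⟩ := (Q.map φ).exists_par hε'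
    refine ⟨P, p1, p2, ?_⟩
    rw [e']
    exact hc K (Q.map φ) _ _ _ _ P p1 p2 p3 p4 hε' (hd1 hVT) h'
  refine ⟨Q.gd h2, ?_, ?_⟩
  · refine hfam _ _ h22 (Q.good1 hVT h2 h0 h6) (Q.good2 hVT h2 h0 h6) ?_
    intro K _ φ
    by_cases hφ : φ Q.ε = 0
    · have : CharZero K := charZero_of_injective_ringHom (φ.comp PowerSeries.C).injective
      obtain ⟨h', e'⟩ := (hd _ K φ Q V T₁ V₂ T₂).2 h2
      rw [e']
      refine (Q.map φ).cohom_zero hcm h' ?_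
      have : (Q.map φ).ε = φ Q.ε := by
        simp only [SPar.ε, SPar.map, map_mul, map_ofNat]
      rw [this]; exact hφ
    · obtain ⟨P, -, -, i1⟩ := gen K φ hφ
      exact hci K _ _ i1.symm (hch K _ _ _ _ _ _ _ _ _ _ _)
  · intro Ω _ _ a hainj
    obtain ⟨P, p1, p2, i1⟩ := gen Ω a (by rw [Ne, map_eq_zero_iff a hainj]; exact hε)
    exact ⟨P, by rw [p1, hQ], p2, i1⟩

end Pool.Agent.H927.MG
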